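import Mathlib

/-!
# Block BU, file Fix: the contraction of the bump lemma
-/

noncomputable section

namespace Pool.Agent.W_4d259d_h86

/-- The equations `α = SA (T β - P α)`, `β = SB (T β - P α)`, for `P` of second order and `T` small
with small Lipschitz constant.  `κ0` depends on `SA`, `SB`, `c1`, `ρ` only.

Proof.  Look for `y` with `Ψ y = y`, `Ψ y = T (SB y) - P (SA y)`; `α = SA y`, `β = SB y`.
Let `a = 1 + ‖SA‖ + ‖SB‖` and `t > 0` with `a * t < ρ` and `8 * c1 * a ^ 2 * t ≤ 1`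
(say `t = min (ρ / (2 * a)) (1 / (8 * (c1 + 1) * a ^ 2))`), `κ0 = min (t / 2) (1 / (4 * a))`.
For `‖y‖ ≤ t`: `‖SA y‖ ≤ a t < ρ`, `‖SB y‖ ≤ a t < ρ`, `‖T (SB y)‖ ≤ κ ≤ t / 2`,
`‖P (SA y)‖ = ‖P (SA y) - P 0‖ ≤ c1 (a t) (a t) ≤ t / 8`, so `‖Ψ y‖ ≤ t`.  For `y, y'` in the
closed ball of radius `t`: `‖Ψ y - Ψ y'‖ ≤ κ a ‖y - y'‖ + c1 (2 a t) a ‖y - y'‖ ≤ 1/2 ‖y - y'‖`.
Banach's fixed point theorem on the complete space `Metric.closedBall (0 : Y) t`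
(`ContractingWith.exists_fixedPoint'` or by hand). -/
theorem fix {Y YA YB : Type*} [NormedAddCommGroup Y] [NormedSpace ℂ Y] [CompleteSpace Y]
    [NormedAddCommGroup YA] [NormedSpace ℂ YA] [NormedAddCommGroup YB] [NormedSpace ℂ YB]
    (SA : Y →L[ℂ] YA) (SB : Y →L[ℂ] YB) {c1 ρ : ℝ} (hc1 : 0 ≤ c1) (hρ : 0 < ρ) :
    ∃ κ0 > 0, ∀ κ : ℝ, 0 ≤ κ → κ ≤ κ0 → ∀ (P : YA → Y) (T : YB → Y), P 0 = 0 →
      (∀ α α' : YA, ‖α‖ < ρ → ‖α'‖ < ρ → ‖P α - P α'‖ ≤ c1 * (‖α‖ + ‖α'‖) * ‖α - α'‖) →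
      (∀ β : YB, ‖β‖ < ρ → ‖T β‖ ≤ κ) →
      (∀ β β' : YB, ‖β‖ < ρ → ‖β'‖ < ρ → ‖T β - T β'‖ ≤ κ * ‖β - β'‖) →
      ∃ (α : YA) (β : YB), ‖α‖ < ρ ∧ ‖β‖ < ρ ∧ α = SA (T β - P α) ∧ β = SB (T β - P α) := by
  set a : ℝ := 1 + ‖SA‖ + ‖SB‖ with ha
  have hA0 := norm_nonneg SA
  have hB0 := norm_nonneg SB
  have ha1 : 1 ≤ a := by linarith
  have ha0 : 0 < a := by linarith
  set t : ℝ := min (ρ / (2 * a)) (1 / (8 * (c1 + 1) * a ^ 2)) with ht
  have ht0 : 0 < t := lt_min (by positivity) (by positivity)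
  have ht1 : t * (2 * a) ≤ ρ := by
    have : t ≤ ρ / (2 * a) := min_le_left _ _
    rwa [le_div_iff₀ (by positivity)] at this
  have ht2 : t * (8 * (c1 + 1) * a ^ 2) ≤ 1 := by
    have : t ≤ 1 / (8 * (c1 + 1) * a ^ 2) := min_le_right _ _
    rwa [le_div_iff₀ (by positivity)] at this
  have hat : a * t < ρ := by nlinarith
  refine ⟨min (t / 2) (1 / (4 * a)), lt_min (by positivity) (by positivity), ?_⟩
  intro κ hκ0 hκ P T hP0 hP hT hTl
  have hκ1 : κ ≤ t / 2 := hκ.trans (min_le_left _ _)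
  have hκ2 : κ * (4 * a) ≤ 1 := by
    have : κ ≤ 1 / (4 * a) := hκ.trans (min_le_right _ _)
    rwa [le_div_iff₀ (by positivity)] at this
  have hSA : ∀ (y : Y) (r : ℝ), ‖y‖ ≤ r → ‖SA y‖ ≤ a * r := by
    intro y r hy
    have h1 := SA.le_opNorm y
    have h2 := norm_nonneg y
    calc ‖SA y‖ ≤ ‖SA‖ * ‖y‖ := h1
      _ ≤ a * r := mul_le_mul (by linarith) hy h2 ha0.le
  have hSB : ∀ (y : Y) (r : ℝ), ‖y‖ ≤ r → ‖SB y‖ ≤ a * r := by
    intro y r hy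
    have h1 := SB.le_opNorm y
    have h2 := norm_nonneg y
    calc ‖SB y‖ ≤ ‖SB‖ * ‖y‖ := h1
      _ ≤ a * r := mul_le_mul (by linarith) hy h2 ha0.le
  have hc : c1 * (a * t + a * t) * a ≤ 1 / 4 := by
    have h1 : c1 * (a * t + a * t) * a = t * (8 * (c1 + 1) * a ^ 2) / 4 - 2 * t * a ^ 2 := by ring
    rw [h1]
    have : 0 ≤ 2 * t * a ^ 2 := by positivity
    linarith
  let Ψ : Y → Y := fun y => T (SB y) - P (SA y)
  have hmaps : ∀ y : Y, ‖y‖ ≤ t → ‖Ψ y‖ ≤ t := by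
    intro y hy
    have h1 := hSA y t hy
    have h2 := hSB y t hy
    have h3 := hT (SB y) (h2.trans_lt hat)
    have h4 := hP (SA y) 0 (h1.trans_lt hat) (by simpa using hρ)
    rw [hP0, sub_zero, sub_zero, norm_zero, add_zero] at h4
    have h5 : c1 * ‖SA y‖ * ‖SA y‖ ≤ c1 * (a * t) * (a * t) := by gcongr
    have h6 : c1 * (a * t) * (a * t) ≤ t / 8 := by
      have e1 : c1 * (a * t) * (a * t) = c1 * (a * t + a * t) * a * (t / 2) := by ring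
      rw [e1]
      nlinarith
    refine (norm_sub_le _ _).trans ?_
    linarith
  have hlip : ∀ y y' : Y, ‖y‖ ≤ t → ‖y'‖ ≤ t → ‖Ψ y - Ψ y'‖ ≤ 1 / 2 * ‖y - y'‖ := by
    intro y y' hy hy'
    have h1 := hTl (SB y) (SB y') ((hSB y t hy).trans_lt hat) ((hSB y' t hy').trans_lt hat)
    have h2 := hP (SA y) (SA y') ((hSA y t hy).trans_lt hat) ((hSA y' t hy').trans_lt hat)
    have h3 : ‖SB y - SB y'‖ ≤ a * ‖y - y'‖ := by
      rw [← map_sub]
      exact hSB _ _ le_rfl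
    have h4 : ‖SA y - SA y'‖ ≤ a * ‖y - y'‖ := by
      rw [← map_sub]
      exact hSA _ _ le_rfl
    have h5 : κ * ‖SB y - SB y'‖ ≤ 1 / 4 * ‖y - y'‖ := by
      have e1 : κ * ‖SB y - SB y'‖ ≤ κ * (a * ‖y - y'‖) := by gcongr
      have := norm_nonneg (y - y')
      nlinarith
    have h6 : c1 * (‖SA y‖ + ‖SA y'‖) * ‖SA y - SA y'‖ ≤ 1 / 4 * ‖y - y'‖ := by
      have e1 : c1 * (‖SA y‖ + ‖SA y'‖) ≤ c1 * (a * t + a * t) := by
        have := hSA y t hy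
        have := hSA y' t hy'
        gcongr
      have e2 : c1 * (‖SA y‖ + ‖SA y'‖) * ‖SA y - SA y'‖ ≤
          c1 * (a * t + a * t) * (a * ‖y - y'‖) :=
        mul_le_mul e1 h4 (norm_nonneg _) (by positivity)
      have := norm_nonneg (y - y')
      nlinarith
    have h7 : Ψ y - Ψ y' = (T (SB y) - T (SB y')) - (P (SA y) - P (SA y')) := by
      simp only [Ψ]
      abel
    rw [h7]
    refine (norm_sub_le _ _).trans ?_
    linarith
  have hcomp : CompleteSpace (Metric.closedBall (0 : Y) t) :=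
    Metric.isClosed_closedBall.completeSpace_coe
  have hne : Nonempty (Metric.closedBall (0 : Y) t) := ⟨⟨0, Metric.mem_closedBall_self ht0.le⟩⟩
  let φ : Metric.closedBall (0 : Y) t → Metric.closedBall (0 : Y) t := fun y =>
    ⟨Ψ y.1, by
      have h := y.2
      rw [mem_closedBall_zero_iff] at h ⊢
      exact hmaps _ h⟩
  have hφ : ContractingWith (1 / 2 : NNReal) φ := by
    refine ⟨?_, LipschitzWith.of_dist_le_mul fun y y' => ?_⟩
    · rw [← NNReal.coe_lt_coe]; norm_num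
    · have h := y.2
      have h' := y'.2
      rw [mem_closedBall_zero_iff] at h h'
      rw [Subtype.dist_eq, Subtype.dist_eq, dist_eq_norm, dist_eq_norm]
      simpa [φ] using hlip y.1 y'.1 h h'
  have hy := (hφ.fixedPoint φ).2
  rw [mem_closedBall_zero_iff] at hy
  have hfix : Ψ (hφ.fixedPoint φ).1 = (hφ.fixedPoint φ).1 :=
    congrArg Subtype.val hφ.fixedPoint_isFixedPt
  set y := (hφ.fixedPoint φ).1 with hydef
  refine ⟨SA y, SB y, (hSA y t hy).trans_lt hat, (hSB y t hy).trans_lt hat, ?_, ?_⟩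
  · change SA y = SA (Ψ y)
    rw [hfix]
  · change SB y = SB (Ψ y)
    rw [hfix]

end Pool.Agent.W_4d259d_h86
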