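import Mathlib

/-!
# Block BU, file Apx: smooth approximation of continuous maps on compact subsets of the plane
-/

noncomputable section

namespace Pool.Agent.W_4d259d_h86

open Set Filter Topology Metric
open scoped ContDiff

variable {E : Type} [NormedAddCommGroup E] [NormedSpace ℂ E] [FiniteDimensional ℂ E]

/-- A continuous map from a compact subset `K` of the plane to `E` is uniformly approximated on
`K` by maps of class `C¹` on the whole plane.  Possible proofs: (a) choose coordinates of `E` over
`ℝ` and use Stone-Weierstrass for polynomials in `re, im` on `K`; (b) a smooth partition of unity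
on the plane (`SmoothPartitionOfUnity` or `exists_contMDiffOn_forall_mem_convex_of_local`) applied
to `z ↦ {y | ‖y - u z‖ < η}` near `K` after extending `u` continuously (Tietze,
`ContinuousMap.exists_restrict_eq` componentwise); (c) direct: `K` compact, `u` uniformly
continuous on `K`, finitely many points `z_i ∈ K` whose balls cover `K`, smooth bumps `χ_i`,
`v = Σ χ_i u(z_i) / Σ χ_i` times a cut-off. -/
theorem smooth_approx {K : Set ℂ} (hK : IsCompact K) {u : ℂ → E} (hu : ContinuousOn u K) {η : ℝ}
    (hη : 0 < η) : ∃ v : ℂ → E, ContDiff ℝ 1 v ∧ ∀ ζ ∈ K, ‖v ζ - u ζ‖ < η := by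
  obtain ⟨g, hg⟩ := ContinuousMap.exists_restrict_eq hK.isClosed
    (⟨K.domRestrict u, continuousOn_iff_continuous_domRestrict.1 hu⟩ : C(K, E))
  obtain ⟨v, hv, hvd, -⟩ := Continuous.exists_contDiff_approx (f := fun z => g z)
    (ε := fun _ => η) 1 g.continuous continuous_const (fun _ => hη)
  refine ⟨v, by simpa using hv, fun ζ hζ => ?_⟩
  have h1 : g ζ = u ζ := by
    have := congrArg (fun f : C(K, E) => f ⟨ζ, hζ⟩) hg
    simpa using this
  have h2 := hvd ζ
  rw [dist_eq_norm, h1] at h2
  exact h2

end Pool.Agent.W_4d259d_h86
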