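import Pool.Agent.W_4d259d_h86.Cst
import Pool.Agent.W_4d259d_h86.Apx
import Pool.Agent.W_4d259d_h44.ApiB
import Pool.Agent.W_4d259d_h46.PlRat

/-!
# Block BU, file Gz: the map `g0` of the bump lemma
-/

noncomputable section

set_option linter.unusedSectionVars false

namespace Pool.Agent.W_4d259d_h86

open Set Filter Topology Manifold Metric MeasureTheory TopologicalSpace
open scoped ContDiff
open Pool.Agent.W_4d259d_h46.Defs Pool.Agent.W_4d259d_h46 Pool.Agent.W_4d259d_h44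
open Pool.Agent.W_4d259d_h46.Pl

variable {R : Type} [TopologicalSpace R] [T2Space R] [ChartedSpace ℂ R]
  [IsManifold (modelWithCornersSelf ℂ ℂ) ω R]
variable {E : Type} [NormedAddCommGroup E] [NormedSpace ℂ E] [FiniteDimensional ℂ E]
variable {X : Type} [MetricSpace X] [ChartedSpace E X]
  [IsManifold (modelWithCornersSelf ℂ E) ω X]

/-- A cut-off of class `C¹` with values in `[0,1]`. -/
theorem exists_cutoff01 {C U : Set ℂ} (hC : IsCompact C) (hU : IsOpen U) (hCU : C ⊆ U) :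
    ∃ (l : ℂ → ℝ) (V : Set ℂ) (L : Set ℂ), ContDiff ℝ 1 l ∧ (∀ z, l z ∈ Icc (0 : ℝ) 1) ∧
      IsOpen V ∧ C ⊆ V ∧ IsCompact L ∧
      V ⊆ L ∧ L ⊆ U ∧ (∀ z ∈ V, l z = 1) ∧ (∀ z, z ∉ L → l z = 0) := by
  obtain ⟨V2, hV2o, hCV2, hV2U, hV2c⟩ := exists_open_between_and_isCompact_closure hC hU hCU
  obtain ⟨V1, hV1o, hCV1, hV1V2, hV1c⟩ := exists_open_between_and_isCompact_closure hC hV2o hCV2
  obtain ⟨l, hl, hrange, hsupp, hone⟩ := exists_contMDiff_support_eq_eq_one_iff (n := 1) 𝓘(ℝ, ℂ)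
    hV2o isClosed_closure hV1V2
  refine ⟨l, V1, closure V2, ?_, fun z => hrange (mem_range_self z), hV1o, hCV1, hV2c, ?_, hV2U,
    ?_, ?_⟩
  · simpa using contMDiff_iff_contDiff.1 hl
  · exact (subset_closure.trans hV1V2).trans subset_closure
  · intro z hz
    exact (hone z).1 (subset_closure hz)
  · intro z hz
    by_contra h
    have : z ∈ Function.support l := h
    rw [hsupp] at this
    exact hz (subset_closure this)

/-- `φ ∘ F ∘ e.symm` is complex differentiable on `e '' (N ∩ W0)`. -/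
theorem diff_phiF {e : OpenPartialHomeomorph R ℂ} (he : e ∈ RChart R) {W0 N : Opens R}
    (hNe : (N : Set R) ⊆ e.source)
    {φ : OpenPartialHomeomorph X E} (hφ : φ ∈ XChart E X) {F : R → X} (hFh : HolOn E F W0)
    (hFφ : ∀ z ∈ (W0 : Set R) ∩ (N : Set R), F z ∈ φ.source) :
    IsOpen (e '' ((N : Set R) ∩ W0)) ∧
    DifferentiableOn ℂ (fun ζ => φ (F (e.symm ζ))) (e '' ((N : Set R) ∩ W0)) := by
  have hU : IsOpen ((N : Set R) ∩ W0) := N.2.inter W0.2
  have hUe : ((N : Set R) ∩ W0) ⊆ e.source := inter_subset_left.trans hNe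
  refine ⟨e.isOpen_image_of_subset_source hU hUe, ?_⟩
  have h1 : HolOn E (fun z => φ (F z)) ((N : Set R) ∩ W0) :=
    holOn_chart_comp hφ (holOn_mono hFh inter_subset_right) (fun z hz => hFφ z ⟨hz.2, hz.1⟩)
  exact (holOn_iff_inChart he hU hUe).1 h1

/-- The interpolation `g0 = χ0 φ(F) + (1 - χ0) f^s` between `φ ∘ F` (near `A`) and a smooth
approximation `f^s` of `φ ∘ f`, written in the chart `e`.

Proof.  `KA = e '' (A ∩ closure N)` is compact (`A` closed, `closure N` compact in `e.source`),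
inside the open set `G = e '' (W0 ∩ e.source)` (`e.isOpen_image...`).  Take `l, V, L` from
`Pl.exists_cutoff` for `KA ⊆ G`: `l` of class `C¹`, `l = 1` on the open set `V ⊇ KA`,
`l = 0` off the compact `L ⊆ G`.  (If `0 ≤ l ≤ 1` is needed: replace `l` by a
cut-off with these bounds, for instance from `exists_contMDiff_support_eq_eq_one_iff`, whose range
is in `[0,1]`.)  `Q1 = V`, and `Q2` an open set with `KA ⊆ Q2`, `closure Q2 ⊆ V`
(`exists_open_between_and_isCompact_closure`).  `f^s` from `smooth_approx` on the compact set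
`e '' closure N` for `u = φ ∘ f ∘ e.symm`.  `g0 ζ = l ζ • φ (F (e.symm ζ)) + (1 - l ζ) • f^s ζ`.
`C¹` on `e '' N`: near a point of `G` both summands are `C¹` (`φ ∘ F ∘ e.symm` is complex
differentiable on `e '' (N ∩ W0)`, an open set, by `holOn_chart_comp`, `holOn_iff_inChart`, hence
real `C¹`), off `L` the first one is zero.  Distance: both
`φ (F z)` (for `z ∈ W0 ∩ closure N`, by `hcon` and `hF`) and `f^s` are within `η` of `φ (f z)`. -/
theorem exists_g0 (f : C(R, X)) {e : OpenPartialHomeomorph R ℂ} (he : e ∈ DChart R)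
    {A : Set R} (hA : IsCompact A) {W0 N : Opens R} (hAW : A ⊆ W0)
    (hNc : IsCompact (closure (N : Set R))) (hNe : closure (N : Set R) ⊆ unitOf e)
    {φ : OpenPartialHomeomorph X E} (hφ : φ ∈ XChart E X)
    (hfφ : ∀ z ∈ closure (N : Set R), f z ∈ φ.source)
    {η ε1 : ℝ} (hη : 0 < η)
    (hcon : ∀ z ∈ closure (N : Set R), ∀ x : X, dist x (f z) < ε1 →
      x ∈ φ.source ∧ ‖φ x - φ (f z)‖ < η)
    {F : R → X} (hFh : HolOn E F W0)
    (hF : ∀ z ∈ (W0 : Set R) ∩ closure (N : Set R), dist (F z) (f z) < ε1) :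
    ∃ (g0 : ℂ → E) (Q1 Q2 : Set ℂ), IsOpen Q1 ∧ IsOpen Q2 ∧ closure Q2 ⊆ Q1 ∧
      (∀ z ∈ A ∩ closure (N : Set R), e z ∈ Q2) ∧
      ContDiffOn ℝ 1 g0 (e '' (N : Set R)) ∧
      (∀ z ∈ closure (N : Set R), ‖g0 (e z) - φ (f z)‖ < η) ∧
      (∀ z ∈ (N : Set R), e z ∈ Q1 → z ∈ W0 ∧ g0 (e z) = φ (F z)) := by
  have hNs : closure (N : Set R) ⊆ e.source := hNe.trans (unitOf_subset_source he)
  have hKA : IsCompact (e '' (A ∩ closure (N : Set R))) :=
    (hA.inter_right isClosed_closure).image_of_continuousOn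
      (e.continuousOn.mono (inter_subset_right.trans hNs))
  have hGo : IsOpen (e '' ((W0 : Set R) ∩ e.source)) :=
    e.isOpen_image_of_subset_source (W0.2.inter e.open_source) inter_subset_right
  have hKG : e '' (A ∩ closure (N : Set R)) ⊆ e '' ((W0 : Set R) ∩ e.source) := by
    refine image_mono ?_
    exact fun z hz => ⟨hAW hz.1, hNs hz.2⟩
  obtain ⟨l, V, L, hl, hl01, hVo, hKV, hLc, hVL, hLG, hl1, hl0⟩ := exists_cutoff01 hKA hGo hKG
  obtain ⟨Q2, hQ2o, hKQ2, hQ2V, -⟩ := exists_open_between_and_isCompact_closure hKA hVo hKV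
  -- the smooth approximation of `φ ∘ f`
  have hu : ContinuousOn (fun ζ => φ (f (e.symm ζ))) (e '' closure (N : Set R)) := by
    refine φ.continuousOn.comp (f.continuous.comp_continuousOn
      (e.continuousOn_symm.mono ?_)) ?_
    · rintro _ ⟨z, hz, rfl⟩
      exact e.map_source (hNs hz)
    · rintro _ ⟨z, hz, rfl⟩
      show f (e.symm (e z)) ∈ φ.source
      rw [e.left_inv (hNs hz)]
      exact hfφ z hz
  obtain ⟨fs, hfs, hfsd⟩ := smooth_approx (hNc.image_of_continuousOn (e.continuousOn.mono hNs))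
    hu hη
  have hFφ : ∀ z ∈ (W0 : Set R) ∩ (N : Set R), F z ∈ φ.source := fun z hz =>
    (hcon z (subset_closure hz.2) (F z) (hF z ⟨hz.1, subset_closure hz.2⟩)).1
  obtain ⟨hOo, hdiff⟩ := diff_phiF he.1 (subset_closure.trans hNs) hφ hFh hFφ
  have hmemW0 : ∀ z ∈ closure (N : Set R), e z ∈ L → z ∈ W0 := by
    intro z hz hzL
    obtain ⟨w, hw, hwz⟩ := hLG hzL
    have : w = z := e.injOn hw.2 (hNs hz) hwz
    rw [← this]
    exact hw.1
  refine ⟨fun ζ => l ζ • φ (F (e.symm ζ)) + (1 - l ζ) • fs ζ, V, Q2, hVo, hQ2o, hQ2V,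
    fun z hz => hKQ2 (mem_image_of_mem e hz), ?_, ?_, ?_⟩
  · -- class `C¹`
    rintro _ ⟨z, hz, rfl⟩
    apply ContDiffAt.contDiffWithinAt
    by_cases hzL : e z ∈ L
    · have hzW : z ∈ W0 := hmemW0 z (subset_closure hz) hzL
      have hzO : e z ∈ e '' ((N : Set R) ∩ W0) := ⟨z, ⟨hz, hzW⟩, rfl⟩
      have h1 : ContDiffAt ℝ 1 (fun ζ => φ (F (e.symm ζ))) (e z) :=
        ((hdiff.contDiffOn (n := 1) hOo).contDiffAt (hOo.mem_nhds hzO)).restrict_scalars ℝ
      exact (hl.contDiffAt.smul h1).add ((contDiffAt_const.sub hl.contDiffAt).smul hfs.contDiffAt)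
    · have h1 : (fun ζ => l ζ • φ (F (e.symm ζ)) + (1 - l ζ) • fs ζ) =ᶠ[𝓝 (e z)] fs := by
        filter_upwards [hLc.isClosed.isOpen_compl.mem_nhds hzL] with w hw
        rw [hl0 w hw, zero_smul, zero_add, sub_zero, one_smul]
      exact hfs.contDiffAt.congr_of_eventuallyEq h1
  · -- distance
    intro z hz
    have hsz : e.symm (e z) = z := e.left_inv (hNs hz)
    have hb : ‖fs (e z) - φ (f z)‖ < η := by
      have := hfsd (e z) (mem_image_of_mem e hz)
      rwa [hsz] at this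
    show ‖l (e z) • φ (F (e.symm (e z))) + (1 - l (e z)) • fs (e z) - φ (f z)‖ < η
    rw [hsz]
    by_cases hzL : e z ∈ L
    · have hzW : z ∈ W0 := hmemW0 z hz hzL
      have ha : ‖φ (F z) - φ (f z)‖ < η := (hcon z hz (F z) (hF z ⟨hzW, hz⟩)).2
      obtain ⟨h0, h1⟩ := hl01 (e z)
      have heq : l (e z) • φ (F z) + (1 - l (e z)) • fs (e z) - φ (f z) =
          l (e z) • (φ (F z) - φ (f z)) + (1 - l (e z)) • (fs (e z) - φ (f z)) := by
        module
      rw [heq]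
      refine lt_of_le_of_lt (norm_add_le _ _) ?_
      rw [norm_smul, norm_smul, Real.norm_of_nonneg h0, Real.norm_of_nonneg (by linarith)]
      rcases h0.eq_or_lt with h0' | h0'
      · rw [← h0', zero_mul, zero_add, sub_zero, one_mul]
        exact hb
      · have h2 : l (e z) * ‖φ (F z) - φ (f z)‖ < l (e z) * η :=
          mul_lt_mul_of_pos_left ha h0'
        have h3 : (1 - l (e z)) * ‖fs (e z) - φ (f z)‖ ≤ (1 - l (e z)) * η :=
          mul_le_mul_of_nonneg_left hb.le (by linarith)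
        calc _ < l (e z) * η + (1 - l (e z)) * η := add_lt_add_of_lt_of_le h2 h3
          _ = η := by ring
    · rw [hl0 _ hzL, zero_smul, zero_add, sub_zero, one_smul]
      exact hb
  · intro z hz hzV
    refine ⟨hmemW0 z (subset_closure hz) (hVL hzV), ?_⟩
    show l (e z) • φ (F (e.symm (e z))) + (1 - l (e z)) • fs (e z) = φ (F z)
    rw [hl1 _ hzV, e.left_inv (hNs (subset_closure hz)), one_smul, sub_self, zero_smul, add_zero]

/-- `∂̄ g0 = 0` on `Q1 ∩ e '' N`. -/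
theorem dbar_g0 {e : OpenPartialHomeomorph R ℂ} (he : e ∈ RChart R) {W0 N : Opens R}
    (hNe : closure (N : Set R) ⊆ e.source)
    {φ : OpenPartialHomeomorph X E} (hφ : φ ∈ XChart E X) {F : R → X} (hFh : HolOn E F W0)
    (hFφ : ∀ z ∈ (W0 : Set R) ∩ closure (N : Set R), F z ∈ φ.source)
    {g0 : ℂ → E} {Q1 : Set ℂ} (hQ1 : IsOpen Q1)
    (hg : ∀ z ∈ (N : Set R), e z ∈ Q1 → z ∈ W0 ∧ g0 (e z) = φ (F z)) :
    ∀ ζ ∈ Q1 ∩ e '' (N : Set R), dbar g0 ζ = 0 := by
  have hNs : (N : Set R) ⊆ e.source := subset_closure.trans hNe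
  obtain ⟨hOo, hdiff⟩ := diff_phiF he hNs hφ hFh (fun z hz => hFφ z ⟨hz.1, subset_closure hz.2⟩)
  have hNo : IsOpen (e '' (N : Set R)) := e.isOpen_image_of_subset_source N.2 hNs
  rintro _ ⟨hzQ, ⟨z, hz, rfl⟩⟩
  have hzO : e z ∈ e '' ((N : Set R) ∩ W0) := ⟨z, ⟨hz, (hg z hz hzQ).1⟩, rfl⟩
  have h1 : g0 =ᶠ[𝓝 (e z)] fun ζ => φ (F (e.symm ζ)) := by
    filter_upwards [hQ1.mem_nhds hzQ, hNo.mem_nhds (mem_image_of_mem e hz)] with w hwQ hwN
    obtain ⟨z', hz', rfl⟩ := hwN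
    rw [e.left_inv (hNs hz')]
    exact (hg z' hz' hwQ).2
  rw [dbar_congr h1]
  exact dbar_eq_zero ((hdiff (e z) hzO).differentiableAt (hOo.mem_nhds hzO))

end Pool.Agent.W_4d259d_h86
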