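import Pool.Agent.W_4d259d_h44.ApiB
import Pool.Agent.W_4d259d_h44.ApiC
import Pool.Agent.W_4d259d_h44.ApiD

/-!
# Block BU, file Jet: jets of `z ↦ s z (α z)`
-/

noncomputable section

set_option linter.unusedSectionVars false

namespace Pool.Agent.W_4d259d_h86

open Set Filter Topology Manifold Metric MeasureTheory TopologicalSpace
open scoped ContDiff
open Pool.Agent.W_4d259d_h46.Defs Pool.Agent.W_4d259d_h46 Pool.Agent.W_4d259d_h44

variable {R : Type} [TopologicalSpace R] [T2Space R] [ChartedSpace ℂ R]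
  [IsManifold (modelWithCornersSelf ℂ ℂ) ω R]
variable {E : Type} [NormedAddCommGroup E] [NormedSpace ℂ E] [FiniteDimensional ℂ E]
variable {X : Type} [MetricSpace X] [ChartedSpace E X]
  [IsManifold (modelWithCornersSelf ℂ E) ω X]

/-- If `α` vanishes to order `k + 1` at `l`, then `s z (α z)` and `F z = s z 0` agree to order `k`.

Proof.  Let `ψ = extChartAt _ (F l)`.  `(z, w) ↦ s z w` is continuous at `(l, 0)` with value
`F l`, so there are an open `U ∋ l`, `U ⊆ WA`, and `0 < r ≤ δ` with `s z w ∈ ψ.source` and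
`‖ψ (s z w)‖ ≤ M` for `z ∈ U`, `w ∈ ball 0 r`.  For `z ∈ U` the map `w ↦ ψ (s z w)` is complex
differentiable on `ball 0 r` (`hol2_slice` applied to `ψ ∘ s`), so by `lip_of_bound`
`‖ψ (s z w) - ψ (s z 0)‖ ≤ K ‖w‖` for `‖w‖ < r / 2`.  As `α z → 0` for `z → l` (by `hO`, the
right hand side tends to `0`), `‖ψ (s z (α z)) - ψ (F z)‖ ≤ K ‖α z‖` near `l`.  `α l = 0` by `hO`
at `z = l`. -/
theorem jet_spray {WA : Opens R} {F : R → X} {δ : ℝ} {s : R → E → X} (hs : IsSpray WA F δ s)
    {l : R} (hl : l ∈ WA) {α : R → E} {k : ℕ}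
    (hO : α =O[𝓝 l] fun z => ‖extChartAt (modelWithCornersSelf ℂ ℂ) l z
          - extChartAt (modelWithCornersSelf ℂ ℂ) l l‖ ^ (k + 1))
    {F' : R → X} (hF' : ∀ z ∈ WA, F' z = s z (α z)) : JetEq E k F' F l := by
  have hcE : CompleteSpace E := FiniteDimensional.complete ℂ E
  set ψ := chartAt E (F l) with hψ
  have hψX : ψ ∈ XChart E X := IsManifold.chart_mem_maximalAtlas (F l)
  have hFl : F l ∈ ψ.source := mem_chart_source E (F l)
  obtain ⟨C, hC⟩ := hO.bound
  have hαl : α l = 0 := by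
    have := hC.self_of_nhds
    simpa using this
  have hval : F' l = F l := by
    rw [hF' l hl, hαl, hs.zero l hl]
  refine ⟨hval, ?_⟩
  -- continuity of the spray
  have hopen : IsOpen ((WA : Set R) ×ˢ ball (0 : E) δ) := WA.2.prod isOpen_ball
  have hmem : (l, (0 : E)) ∈ (WA : Set R) ×ˢ ball (0 : E) δ := ⟨hl, mem_ball_self hs.pos⟩
  have hcont : ContinuousAt (fun q : R × E => s q.1 q.2) (l, 0) :=
    (hs.hol.continuousOn).continuousAt (hopen.mem_nhds hmem)
  have hval0 : (fun q : R × E => s q.1 q.2) (l, 0) = F l := hs.zero l hl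
  have hev : ∀ᶠ q in 𝓝 (l, (0 : E)), (q.1 ∈ WA ∧ q.2 ∈ ball (0 : E) δ) ∧
      (s q.1 q.2 ∈ ψ.source ∧ ψ (s q.1 q.2) ∈ ball (ψ (F l)) 1) := by
    refine Eventually.and (hopen.mem_nhds hmem) ?_
    refine Eventually.and ?_ ?_
    · exact hcont.eventually (by rw [hval0]; exact ψ.open_source.mem_nhds hFl)
    · have h1 : ContinuousAt ψ ((fun q : R × E => s q.1 q.2) (l, 0)) := by
        rw [hval0]
        exact ψ.continuousAt hFl
      have h2 : ContinuousAt (fun q : R × E => ψ (s q.1 q.2)) (l, 0) := ContinuousAt.comp h1 hcont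
      refine h2.eventually ?_
      have h3 : (fun q : R × E => ψ (s q.1 q.2)) (l, 0) = ψ (F l) := by
        simp only
        rw [hs.zero l hl]
      rw [h3]
      exact ball_mem_nhds _ one_pos
  rw [nhds_prod_eq] at hev
  obtain ⟨p, hp, q, hq, hpq⟩ := Filter.eventually_prod_iff.mp hev
  obtain ⟨r, hr, hrb⟩ := Metric.eventually_nhds_iff_ball.mp hq
  have hkey : ∀ z, p z → ∀ w ∈ ball (0 : E) (r / 2),
      ‖ψ (s z w) - ψ (s z 0)‖ ≤ (‖ψ (F l)‖ + 1) / (r - r / 2) * ‖w‖ := by
    intro z hz w hw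
    have hsl : DifferentiableOn ℂ (fun w => ψ (s z w)) (ball 0 r) := by
      rw [← mdifferentiableOn_iff_differentiableOn]
      have h1 : MDifferentiableOn (modelWithCornersSelf ℂ E)
          ((modelWithCornersSelf ℂ ℂ).prod (modelWithCornersSelf ℂ E)) (fun w : E => (z, w))
          (ball 0 r) := (mdifferentiableOn_const).prodMk mdifferentiableOn_id
      have h2 : MDifferentiableOn (modelWithCornersSelf ℂ E) (modelWithCornersSelf ℂ E)
          (fun w : E => s z w) (ball 0 r) :=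
        hs.hol.comp h1 (fun w hw => (hpq hz (hrb w hw)).1)
      have h3 : MDifferentiableOn (modelWithCornersSelf ℂ E) (modelWithCornersSelf ℂ E) ψ
          ψ.source := (contMDiffOn_of_mem_maximalAtlas hψX).mdifferentiableOn (by simp)
      exact h3.comp h2 (fun w hw => (hpq hz (hrb w hw)).2.1)
    have hbd : ∀ w ∈ ball (0 : E) r, ‖ψ (s z w)‖ ≤ ‖ψ (F l)‖ + 1 := by
      intro w hw
      have h1 := (hpq hz (hrb w hw)).2.2
      rw [mem_ball_iff_norm] at h1
      have h2 := norm_le_norm_add_norm_sub' (ψ (s z w)) (ψ (F l))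
      linarith
    have h1 := ApiC.lip_of_bound (r' := r / 2) (by linarith) hsl hbd hw
      (mem_ball_self (by positivity))
    simpa using h1
  -- `α z → 0`
  have hα0 : Tendsto α (𝓝 l) (𝓝 0) := by
    refine hO.trans_tendsto ?_
    have hc : ContinuousAt (extChartAt (modelWithCornersSelf ℂ ℂ) l) l := continuousAt_extChartAt l
    have h2 := ((hc.tendsto.sub_const (extChartAt (modelWithCornersSelf ℂ ℂ) l l)).norm).pow (k + 1)
    simpa using h2
  have hev2 : ∀ᶠ z in 𝓝 l, p z ∧ z ∈ WA ∧ α z ∈ ball (0 : E) (r / 2) :=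
    hp.and (Eventually.and (WA.2.mem_nhds hl) (hα0.eventually (ball_mem_nhds 0 (by positivity))))
  have hO2 : (fun z : R => extChartAt (modelWithCornersSelf ℂ E) (F l) (F' z)
        - extChartAt (modelWithCornersSelf ℂ E) (F l) (F z)) =O[𝓝 l] α := by
    refine Asymptotics.IsBigO.of_bound ((‖ψ (F l)‖ + 1) / (r - r / 2)) ?_
    filter_upwards [hev2] with z hz
    have h1 := hkey z hz.1 (α z) hz.2.2
    rw [hs.zero z hz.2.1, ← hF' z hz.2.1] at h1
    exact h1
  exact hO2.trans hO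

end Pool.Agent.W_4d259d_h86
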