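import Pool.Agent.W_4d259d_h86.Glue
import Pool.Agent.W_4d259d_h86.Gz
import Pool.Agent.W_4d259d_h86.Fix
import Pool.Agent.W_4d259d_h86.Jet
import Pool.Agent.W_4d259d_h46.PlB6

/-!
# Block BU, file Main: the bump lemma
-/

noncomputable section

set_option linter.unusedSectionVars false

namespace Pool.Agent.W_4d259d_h86

open Set Filter Topology Manifold Metric MeasureTheory TopologicalSpace
open scoped ContDiff
open Pool.Agent.W_4d259d_h46.Defs Pool.Agent.W_4d259d_h46 Pool.Agent.W_4d259d_h44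
open Pool.Agent.W_4d259d_h46.Pl

variable {R : Type} [TopologicalSpace R] [T2Space R] [ChartedSpace ℂ R]
  [IsManifold (modelWithCornersSelf ℂ ℂ) ω R]
variable {E : Type} [NormedAddCommGroup E] [NormedSpace ℂ E] [FiniteDimensional ℂ E]
variable {X : Type} [MetricSpace X] [ChartedSpace E X]
  [IsManifold (modelWithCornersSelf ℂ E) ω X]

/-- THE BUMP LEMMA. -/
theorem bump_thm [GoodSurface R] (hT : TransThm R E X) (hU : FlexUnif E X)
    (hflex : ∀ x : X, FlexAt E x) : BumpThm R E X := by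
  intro f A B hA hB _ hnB e he hBh φ hφ hfφ ε hε
  have : CompleteSpace E := FiniteDimensional.complete ℂ E
  have : Nonempty X := ⟨φ.symm 0⟩
  have heR : e ∈ RChart R := he.1
  have hDB : closure (B \ A) ⊆ B := closure_minimal sdiff_subset hB.isClosed
  have hDc : IsCompact (closure (B \ A)) := hB.of_isClosed_subset isClosed_closure hDB
  have hDu : closure (B \ A) ⊆ unitOf e := hDB.trans (hBh.trans (halfOf_subset_unitOf e))
  obtain ⟨Ω, η, ε1, Cx, hDΩ, hΩc, hΩu, hΩφ, hη, hε1, hε1ε, hCx, hCxt, hball, hball4, hsymm, hcon⟩ :=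
    consts f hDc (isOpen_unitOf he) hDu φ hfφ (half_pos hε)
  refine ⟨ε1, hε1, ?_⟩
  intro Λ hΛ hΛA k W0 hAW F hFh H0 hH0 hH0A hF
  -- the neighbourhoods `N1`, `N`
  have hZc : IsClosed (H0 ∪ Λ) := hH0.union hΛ.isClosed
  have hZA : H0 ∪ Λ ⊆ interior A := union_subset hH0A hΛA
  have hDZ : Disjoint (closure (B \ A)) (H0 ∪ Λ) := by
    have h1 : Disjoint (interior A) (closure (B \ A)) := by
      refine Disjoint.closure_right ?_ isOpen_interior
      rw [Set.disjoint_left]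
      intro z hz hz2
      exact hz2.2 (interior_subset hz)
    exact (h1.mono_left hZA).symm
  obtain ⟨N1, N, hDN1, hN1N, hNΩ, hNZ, hNc⟩ := exists_N hDc Ω.isOpen hDΩ hZc hDZ
  have hNΩ' : closure (N : Set R) ⊆ closure (Ω : Set R) := hNΩ.trans subset_closure
  have hNu : closure (N : Set R) ⊆ unitOf e := hNΩ'.trans hΩu
  have hNs : closure (N : Set R) ⊆ e.source := hNu.trans (unitOf_subset_source he)
  have hN1N' : (N1 : Set R) ⊆ N := subset_closure.trans hN1N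
  have hN1s : (N1 : Set R) ⊆ e.source := hN1N'.trans (subset_closure.trans hNs)
  have hFN : ∀ z ∈ (W0 : Set R) ∩ closure (N : Set R), dist (F z) (f z) < ε1 := by
    intro z hz
    refine hF z ⟨hz.1, fun h => ?_⟩
    exact (Set.disjoint_left.1 hNZ hz.2) (Or.inl h)
  have hconN : ∀ z ∈ closure (N : Set R), ∀ x : X, dist x (f z) < ε1 →
      x ∈ φ.source ∧ ‖φ x - φ (f z)‖ < η := fun z hz => hcon z (hNΩ' hz)
  -- the map `g0`
  obtain ⟨g0, Q1, Q2, hQ1, hQ2, hQ21, hQA, hg0C, hg0f, hg0F⟩ := exists_g0 f he hA hAW hNc hNu hφ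
    (fun z hz => hΩφ z (hNΩ' hz)) hη hconN hFh hFN
  have hFφ : ∀ z ∈ (W0 : Set R) ∩ closure (N : Set R), F z ∈ φ.source := fun z hz =>
    (hconN z hz.2 _ (hFN z hz)).1
  have hdb : ∀ ζ ∈ Q1 ∩ e '' (N : Set R), dbar g0 ζ = 0 := dbar_g0 heR hNs hφ hFh hFφ hQ1 hg0F
  -- the neighbourhood `WA`
  obtain ⟨WA, hAWA, hWAc, hWAW, hWAQ⟩ := exists_WA hA hAW hNs hQ2 hQA
  -- the set `V`
  set V := VV e A B Q2 with hVdef
  have hVo : IsOpen V := isOpen_VV he hA hBh Q2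
  have hVD : V ⊆ e '' closure (B \ A) := VV_subset he hBh Q2
  have hVn : volume ((e '' closure (B \ A) \ V) ∩ {ζ | dbar g0 ζ ≠ 0}) = 0 :=
    VV_null he hB hBh hnB (hDN1.trans hN1N') hQ21 hQA hdb
  -- flexibility
  obtain ⟨δf, ρf, Mf, hδf, hρf, hMf, hfl⟩ := hU φ hφ Cx hCx hCxt (fun c _ => hflex _)
  -- transition data
  obtain ⟨δs, C0, s, MB, ξ, hsp, hsc, hMB, hMC0, hξ, hξC0, hξ0, hsφ⟩ :=
    hT W0 WA N1 N F hFh hWAc hWAW e he hN1N hNu φ hφ
      (fun z hz => hFφ z ⟨hWAW hz.1, hz.2⟩)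
  obtain ⟨C, hC, hC0⟩ : ∃ C : ℝ, 0 ≤ C ∧ C0 ≤ C := ⟨max C0 0, le_max_right _ _, le_max_left _ _⟩
  have hMC : ∀ z ∈ (N1 ⊔ (WA ⊓ N) : Opens R), ‖MB z‖ ≤ C ∧ IsUnit (MB z) ∧
      ‖Ring.inverse (MB z)‖ ≤ C := fun z hz =>
    ⟨(hMC0 z hz).1.trans hC0, (hMC0 z hz).2.1, (hMC0 z hz).2.2.trans hC0⟩
  have hξC : ∀ z ∈ WA ⊓ N, ∀ α ∈ ball (0 : E) δs, ‖ξ z α‖ ≤ C := fun z hz α hα =>
    (hξC0 z hz α hα).trans hC0
  -- the splitting
  have hΛN : Disjoint Λ (closure (N : Set R)) := (hNZ.mono_right subset_union_right).symm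
  obtain ⟨SA, SB, hSAB, hSAj⟩ := split_jets (F := E) he N1 N WA hN1N hNu hWAc hΛ hΛN k
  -- the operator `P`
  obtain ⟨c1, r, P, hc1, hr, hrδ, hP0, hPf, hPl⟩ :=
    exists_P (U := WA ⊓ N) (V := WA) inf_le_left hsp.pos hC hξ hξC hξ0
  -- the radius
  obtain ⟨δ', hδ', hsc'⟩ := hsc (ε / 2) (half_pos hε)
  obtain ⟨ρ, hρ, hρr, hρδ, hρC1, hρC2⟩ : ∃ ρ > 0, ρ ≤ r ∧ ρ ≤ δ' ∧ C * ρ ≤ δf / 8 ∧
      C * ρ ≤ η / 2 := by
    refine ⟨min (min r δ') (min (δf / 8 / (C + 1)) (η / 2 / (C + 1))), by positivity,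
      (min_le_left _ _).trans (min_le_left _ _), (min_le_left _ _).trans (min_le_right _ _),
      ?_, ?_⟩
    · have h1 : min (min r δ') (min (δf / 8 / (C + 1)) (η / 2 / (C + 1))) ≤ δf / 8 / (C + 1) :=
        (min_le_right _ _).trans (min_le_left _ _)
      calc C * _ ≤ C * (δf / 8 / (C + 1)) := mul_le_mul_of_nonneg_left h1 hC
        _ ≤ (C + 1) * (δf / 8 / (C + 1)) := by gcongr; linarith
        _ = δf / 8 := by field_simp
    · have h1 : min (min r δ') (min (δf / 8 / (C + 1)) (η / 2 / (C + 1))) ≤ η / 2 / (C + 1) :=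
        (min_le_right _ _).trans (min_le_right _ _)
      calc C * _ ≤ C * (η / 2 / (C + 1)) := mul_le_mul_of_nonneg_left h1 hC
        _ ≤ (C + 1) * (η / 2 / (C + 1)) := by gcongr; linarith
        _ = η / 2 := by field_simp
  -- the fixed point theorem
  obtain ⟨κ0, hκ0, hfix⟩ := fix SA SB hc1 hρ
  obtain ⟨κ, hκ, hκη, hκ1, hκ2⟩ : ∃ κ > 0, κ ≤ η / 2 ∧ C * κ ≤ κ0 ∧ C * (κ * C) ≤ κ0 := by
    refine ⟨min (η / 2) (κ0 / (C + 1) ^ 2), by positivity, min_le_left _ _, ?_, ?_⟩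
    · calc C * _ ≤ C * (κ0 / (C + 1) ^ 2) := mul_le_mul_of_nonneg_left (min_le_right _ _) hC
        _ ≤ (C + 1) ^ 2 * (κ0 / (C + 1) ^ 2) := by gcongr; nlinarith
        _ = κ0 := by field_simp
    · calc C * (min (η / 2) (κ0 / (C + 1) ^ 2) * C)
          ≤ C * ((κ0 / (C + 1) ^ 2) * C) := by
            gcongr
            exact min_le_right _ _
        _ = C * C * (κ0 / (C + 1) ^ 2) := by ring
        _ ≤ (C + 1) ^ 2 * (κ0 / (C + 1) ^ 2) := by gcongr; nlinarith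
        _ = κ0 := by field_simp
  -- the planar bump theorem
  obtain ⟨h1, hh1, hosc⟩ := osc f he hε
  have hNo : IsOpen (e '' (N : Set R)) :=
    e.isOpen_image_of_subset_source N.isOpen (subset_closure.trans hNs)
  have hN1o : IsOpen (e '' (N1 : Set R)) := e.isOpen_image_of_subset_source N1.isOpen hN1s
  have hDcp : IsCompact (e '' closure (B \ A)) :=
    hDc.image_of_continuousOn (e.continuousOn.mono (hDu.trans (unitOf_subset_source he)))
  have hsub1 : ∀ S : Set R, S ⊆ unitOf e → e '' S ⊆ closedBall (0 : ℂ) 1 := by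
    rintro S hS _ ⟨z, hz, rfl⟩
    obtain ⟨ζ, hζ, rfl⟩ := hS hz
    rw [e.right_inv (he.2 (by
      rw [mem_closedBall]; rw [mem_ball] at hζ; linarith))]
    exact ball_subset_closedBall hζ
  obtain ⟨W, h, J, Sop, hWo, hDW, hWN1, hWN, hh, hhh1, hJV, hJd, hS1, hS2, hS3, hS4⟩ :=
    planar_bump (X := X) hφ hδf hρf hMf hfl hNo hg0C hDcp
      (image_mono (hDN1.trans hN1N')) (hsub1 _ hDu) hVo hVD hVn
      (by
        intro ζ hζ
        obtain ⟨z, hz, rfl⟩ := hVD hζ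
        have hzN : z ∈ closure (N : Set R) := subset_closure (hN1N' (hDN1 hz))
        refine hball z (hNΩ' hzN) ?_
        rw [mem_closedBall, dist_eq_norm]
        linarith [hg0f z hzN])
      hη
      (by
        rintro _ ⟨z, hz, rfl⟩
        have hzN : z ∈ closure (N : Set R) := subset_closure hz
        refine Subset.trans ?_ (hball4 z (hNΩ' hzN))
        refine closedBall_subset_closedBall' ?_
        rw [dist_eq_norm]
        linarith [hg0f z hzN])
      hκ hκη hh1 hN1o (image_mono hDN1)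
  have hJ1 : ∀ j ∈ J, ball j (h / 2) ⊆ e '' (N1 : Set R) := fun j hj =>
    ball_subset_closedBall.trans ((hJV j hj).trans (hVD.trans (image_mono hDN1)))
  have hQO : ∀ z ∈ WA ⊓ N, e z ∈ Q2 := fun z hz =>
    hWAQ z ⟨subset_closure hz.1, subset_closure hz.2⟩
  have hoffO : ∀ z ∈ WA ⊓ N, Off h J (e z) := fun z hz => off_of_Q2 hh hJV (hQO z hz)
  have hdbO : ∀ z ∈ WA ⊓ N, dbar g0 (e z) = 0 := fun z hz =>
    hdb _ ⟨hQ21 (subset_closure (hQO z hz)), mem_image_of_mem e hz.2⟩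
  obtain ⟨T, hTf, hTn, hTl⟩ := exists_T (O := WA ⊓ N) (WB := N1 ⊔ (WA ⊓ N)) heR hN1s
    (fun z hz => hNs (subset_closure hz.2)) le_sup_left le_sup_right hMB hC hδf hκ.le hMC hJ1
    hoffO hdbO hS1 hS2 hS3
  have hCβ : ∀ β : HB (N1 ⊔ (WA ⊓ N)) E, ‖β‖ < ρ → C * ‖β‖ ≤ δf / 8 := fun β hβ =>
    (mul_le_mul_of_nonneg_left hβ.le hC).trans hρC1
  obtain ⟨α, β, hα, hβ, hαe, hβe⟩ := hfix κ0 hκ0.le le_rfl P T hP0
    (fun a a' h h' => hPl a a' (h.trans_le hρr) (h'.trans_le hρr))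
    (fun b hb => (hTn b (hCβ b hb)).trans hκ1)
    (fun b b' hb hb' => (hTl b b' (hCβ b hb) (hCβ b' hb')).trans (by
      calc C * (κ * (C * ‖b - b'‖)) = C * (κ * C) * ‖b - b'‖ := by ring
        _ ≤ κ0 * ‖b - b'‖ := by gcongr))
  set b : ℂ → E := bOf e MB β.fn with hbdef
  have hbs : SmallOn h δf J b :=
    bOf_small heR hN1s le_sup_left hMB (fun z hz => (hMC z hz).1) hJ1 β (hCβ β hβ)
  have hbd : DifferentiableOn ℂ b W := (bOf_diff heR hN1s le_sup_left hMB β).mono hWN1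
  have hbn : ∀ ζ ∈ W, ‖b ζ‖ ≤ η / 2 := fun ζ hζ =>
    (bOf_le hN1s le_sup_left (fun z hz => (hMC z hz).1) β ζ (hWN1 hζ)).trans
      ((mul_le_mul_of_nonneg_left hβ.le hC).trans hρC2)
  obtain ⟨G, hG, hGφ⟩ := hS4 b hbs hbd hbn
  have hαball : ∀ z, α.fn z ∈ ball (0 : E) δs := fun z => by
    rw [mem_ball_zero_iff]
    exact ((HB.fn_le α z).trans_lt hα).trans_le (hρr.trans hrδ)
  have hag : ∀ z ∈ WA, z ∈ N1 → e z ∈ W → s z (α.fn z) = G (e z) := by
    intro z hzA hzN hzW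
    have hzO : z ∈ WA ⊓ N := ⟨hzA, hN1N' hzN⟩
    obtain ⟨hp, hp2⟩ := hsφ z hzO (α.fn z) (hαball z)
    obtain ⟨hq, hq2⟩ := hGφ (e z) hzW (hoffO z hzO)
    have hbz : b (e z) = MB z (β.fn z) := by
      simp only [hbdef, bOf, e.left_inv (hN1s hzN)]
    rw [(hg0F z hzO.2 (hQ21 (subset_closure (hQO z hzO)))).2, hbz] at hq2
    have hzB : z ∈ (N1 ⊔ (WA ⊓ N) : Opens R) := Or.inl hzN
    refine agree hp hq (hMC z hzB).2.1 hp2 hq2 ?_
    have h3 := hSAB (T β - P α) z hzO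
    rw [← hαe, ← hβe, HB.fn_sub, hTf β (hCβ β hβ) z hzO, hPf α (hα.trans_le hρr) z hzO] at h3
    exact h3
  have hWo' : IsOpen ((WA : Set R) ∪ {z | z ∈ N1 ∧ e z ∈ W}) :=
    WA.isOpen.union (isOpen_over hN1s hWo)
  refine ⟨⟨_, hWo'⟩, glueMap (WA : Set R) s α.fn e G, discs e h J, ?_, ?_, ?_, ?_, ?_, ?_⟩
  · -- `A ∪ B ⊆ W'`
    rintro z (hz | hz)
    · exact Or.inl (hAWA hz)
    · by_cases hzA : z ∈ A
      · exact Or.inl (hAWA hzA)
      · have hzD : z ∈ closure (B \ A) := subset_closure ⟨hz, hzA⟩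
        exact Or.inr ⟨hDN1 hzD, hDW (mem_image_of_mem e hzD)⟩
  · exact glue_hol heR hN1s (holOn_comp_spray hsp.hol α.fn_hol fun z _ => hαball z) hWo hG hag
  · refine discFam_discs he hh (fun j hj => ?_) hJd
    exact (closedBall_subset_closedBall (by linarith)).trans
      ((hJV j hj).trans (hVD.trans (hsub1 _ hDu)))
  · exact discs_prop f he hBh hh hhh1 hosc hJV
  · rintro z ⟨hzW, hzn⟩
    rw [mem_union, not_or] at hzn
    by_cases hzA : z ∈ (WA : Set R)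
    · have h1 : dist (s z (α.fn z)) (F z) < ε / 2 :=
        hsc' z hzA _ (((HB.fn_le α z).trans_lt hα).trans_le hρδ)
      have h2 : dist (F z) (f z) < ε1 := hF z ⟨hWAW (subset_closure hzA), hzn.1⟩
      have h3 : glueMap (WA : Set R) s α.fn e G z = s z (α.fn z) := by
        simp only [glueMap, hzA, if_true]
      rw [h3]
      linarith [dist_triangle (s z (α.fn z)) (F z) (f z)]
    · have hzN : z ∈ N1 ∧ e z ∈ W := by
        rcases hzW with h | h
        · exact absurd h hzA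
        · exact h
      have hoff : Off h J (e z) := off_of_not_mem (hN1s hzN.1) hzn.2
      obtain ⟨hq, hq2⟩ := hGφ (e z) hzN.2 hoff
      have hzNc : z ∈ closure (N : Set R) := subset_closure (hN1N' hzN.1)
      have h3 : glueMap (WA : Set R) s α.fn e G z = G (e z) := by
        simp only [glueMap, hzA, if_false]
      have h4 : ‖φ (G (e z)) - φ (f z)‖ ≤ 2 * η := by
        rw [hq2]
        have e1 := hg0f z hzNc
        have e2 := hbn (e z) hzN.2
        have e3 := hS1 b hbs (e z) hoff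
        calc ‖g0 (e z) + b (e z) + Sop b (e z) - φ (f z)‖
            = ‖(g0 (e z) - φ (f z)) + b (e z) + Sop b (e z)‖ := by congr 1; abel
          _ ≤ ‖g0 (e z) - φ (f z)‖ + ‖b (e z)‖ + ‖Sop b (e z)‖ := norm_add₃_le
          _ ≤ 2 * η := by linarith
      have h5 := hsymm z (hNΩ' hzNc) (φ (G (e z))) (by
        rw [mem_closedBall, dist_eq_norm]
        linarith)
      rw [φ.left_inv hq] at h5
      rw [h3]
      linarith
  · intro l hl
    have hlW : l ∈ WA := hAWA (interior_subset (hΛA hl))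
    refine jet_spray hsp hlW (α := α.fn) ?_ (fun z hz => ?_)
    · have h1 := hSAj l hl hlW (T β - P α)
      rw [← hαe] at h1
      exact h1
    · have hz' : z ∈ (WA : Set R) := hz
      simp only [glueMap, hz', if_true]

end Pool.Agent.W_4d259d_h86
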