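import Pool.Agent.W_4d259d_h44.Iface

/-!
# Block BU, file Cst: constants and small topological choices for the bump lemma
-/

noncomputable section

set_option linter.unusedSectionVars false

namespace Pool.Agent.W_4d259d_h86

open Set Filter Topology Manifold Metric MeasureTheory TopologicalSpace
open scoped ContDiff
open Pool.Agent.W_4d259d_h46.Defs Pool.Agent.W_4d259d_h46 Pool.Agent.W_4d259d_h44

variable {R : Type} [TopologicalSpace R] [T2Space R] [ChartedSpace ℂ R]
variable {E : Type} [NormedAddCommGroup E] [NormedSpace ℂ E] [FiniteDimensional ℂ E]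
variable {X : Type} [MetricSpace X] [ChartedSpace E X]

/-- The region of a disc chart over the open unit disc is open. -/
theorem isOpen_unitOf {e : OpenPartialHomeomorph R ℂ} (he : e ∈ DChart R) :
    IsOpen (unitOf e) :=
  e.symm.isOpen_image_of_subset_source isOpen_ball
    (ball_subset_closedBall.trans ((closedBall_subset_closedBall (by norm_num)).trans he.2))

theorem halfOf_subset_unitOf (e : OpenPartialHomeomorph R ℂ) : halfOf e ⊆ unitOf e :=
  image_mono (closedBall_subset_ball (by norm_num))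

theorem unitOf_subset_source {e : OpenPartialHomeomorph R ℂ} (he : e ∈ DChart R) :
    unitOf e ⊆ e.source := by
  rintro _ ⟨w, hw, rfl⟩
  exact e.map_target (he.2 (closedBall_subset_closedBall (by norm_num) (ball_subset_closedBall hw)))

theorem isCompact_halfOf {e : OpenPartialHomeomorph R ℂ} (he : e ∈ DChart R) :
    IsCompact (halfOf e) :=
  (isCompact_closedBall _ _).image_of_continuousOn
    (e.continuousOn_symm.mono ((closedBall_subset_closedBall (by norm_num)).trans he.2))

/-- CONSTANTS.  `D` compact, `f(D)` inside the domain of the chart `φ` of `X`, `D ⊆ Ω0` open.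
Proof: `R` is locally compact (`ChartedSpace.locallyCompactSpace ℂ R`).  `f⁻¹(φ.source) ∩ Ω0` is
an open set containing `D`: choose `Ω` with compact closure in it
(`exists_open_between_and_isCompact_closure`).  `P = (φ ∘ f) '' closure Ω` is compact, inside the
open set `φ.target`, so some closed thickening `cthickening (5 η0) P` is compact (`E` proper:
`FiniteDimensional.proper ℂ E`) and inside `φ.target`.  `φ.symm` is uniformly continuous on this
compact set, so for `η ≤ η0` small the second item holds.  The last item: for the compact set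
`f '' closure Ω` inside the open set `φ.source` and `φ` continuous on `φ.source`
(for instance `IsCompact.uniformContinuousAt_of_continuousAt`, or a Lebesgue number argument).
`Cx = cthickening (2 η) P`. -/
theorem consts (f : C(R, X)) {D Ω0 : Set R} (hD : IsCompact D) (hΩ0 : IsOpen Ω0) (hDΩ : D ⊆ Ω0)
    (φ : OpenPartialHomeomorph X E) (hf : ∀ z ∈ D, f z ∈ φ.source) {ε : ℝ} (hε : 0 < ε) :
    ∃ (Ω : Opens R) (η ε1 : ℝ) (Cx : Set E), D ⊆ Ω ∧ IsCompact (closure (Ω : Set R)) ∧
      closure (Ω : Set R) ⊆ Ω0 ∧ (∀ z ∈ closure (Ω : Set R), f z ∈ φ.source) ∧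
      0 < η ∧ 0 < ε1 ∧ ε1 ≤ ε ∧ IsCompact Cx ∧ Cx ⊆ φ.target ∧
      (∀ z ∈ closure (Ω : Set R), closedBall (φ (f z)) (2 * η) ⊆ Cx) ∧
      (∀ z ∈ closure (Ω : Set R), closedBall (φ (f z)) (4 * η) ⊆ φ.target) ∧
      (∀ z ∈ closure (Ω : Set R), ∀ y ∈ closedBall (φ (f z)) (4 * η),
        dist (φ.symm y) (f z) < ε) ∧
      (∀ z ∈ closure (Ω : Set R), ∀ x : X, dist x (f z) < ε1 →
        x ∈ φ.source ∧ ‖φ x - φ (f z)‖ < η) := by
  haveI : LocallyCompactSpace R := ChartedSpace.locallyCompactSpace ℂ R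
  haveI : ProperSpace E := FiniteDimensional.proper ℂ E
  have hSo : IsOpen (Ω0 ∩ f ⁻¹' φ.source) := hΩ0.inter (φ.open_source.preimage f.continuous)
  obtain ⟨Ω, hΩo, hDΩ', hΩS, hΩc⟩ := exists_open_between_and_isCompact_closure hD hSo
    (fun z hz => ⟨hDΩ hz, hf z hz⟩)
  have hsrc : ∀ z ∈ closure Ω, f z ∈ φ.source := fun z hz => (hΩS hz).2
  set P : Set E := (fun z => φ (f z)) '' closure Ω with hPdef
  have hP : IsCompact P := hΩc.image_of_continuousOn
    (φ.continuousOn.comp f.continuous.continuousOn hsrc)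
  have hPt : P ⊆ φ.target := by
    rintro _ ⟨z, hz, rfl⟩
    exact φ.map_source (hsrc z hz)
  obtain ⟨η0, hη0, hη0t⟩ := hP.exists_cthickening_subset_open φ.open_target hPt
  have hC2 : IsCompact (cthickening η0 P) := hP.cthickening
  have huc : UniformContinuousOn φ.symm (cthickening η0 P) :=
    hC2.uniformContinuousOn_of_continuous (φ.continuousOn_symm.mono hη0t)
  rw [Metric.uniformContinuousOn_iff] at huc
  obtain ⟨η1, hη1, huc1⟩ := huc ε hε
  set η : ℝ := min (η0 / 5) (η1 / 5) with hηdef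
  have hη : 0 < η := lt_min (by positivity) (by positivity)
  have hη0' : 4 * η ≤ η0 := by
    have : η ≤ η0 / 5 := min_le_left _ _
    linarith
  have hη1' : 4 * η < η1 := by
    have : η ≤ η1 / 5 := min_le_right _ _
    linarith
  have hmemP : ∀ z ∈ closure Ω, φ (f z) ∈ P := fun z hz => mem_image_of_mem _ hz
  have hball4 : ∀ z ∈ closure Ω, closedBall (φ (f z)) (4 * η) ⊆ cthickening η0 P := fun z hz =>
    (closedBall_subset_closedBall hη0').trans (closedBall_subset_cthickening (hmemP z hz) _)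
  -- the last item
  have hK' : IsCompact (f '' closure Ω) := hΩc.image f.continuous
  have hK's : f '' closure Ω ⊆ φ.source := by
    rintro _ ⟨z, hz, rfl⟩
    exact hsrc z hz
  obtain ⟨δ1, hδ1, hδ1s⟩ := hK'.exists_thickening_subset_open φ.open_source hK's
  have hun := hK'.uniformContinuousAt_of_continuousAt (f := φ)
    (fun x hx => φ.continuousAt (hK's hx)) (Metric.dist_mem_uniformity hη)
  obtain ⟨δ2, hδ2, hδ2s⟩ := Metric.mem_uniformity_dist.1 hun
  refine ⟨⟨Ω, hΩo⟩, η, min (min δ1 δ2) ε, cthickening (2 * η) P, hDΩ', hΩc,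
    hΩS.trans inter_subset_left, hsrc, hη, lt_min (lt_min hδ1 hδ2) hε, min_le_right _ _,
    hP.cthickening, (cthickening_mono (by linarith) P).trans hη0t, ?_, ?_, ?_, ?_⟩
  · intro z hz
    exact closedBall_subset_cthickening (hmemP z hz) _
  · intro z hz
    exact (hball4 z hz).trans hη0t
  · intro z hz y hy
    have h1 := huc1 y (hball4 z hz hy) (φ (f z)) (hball4 z hz (mem_closedBall_self (by positivity)))
      (lt_of_le_of_lt (mem_closedBall.1 hy) hη1')
    rwa [φ.left_inv (hsrc z hz)] at h1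
  · intro z hz x hx
    have hfz : f z ∈ f '' closure Ω := mem_image_of_mem f hz
    refine ⟨hδ1s ?_, ?_⟩
    · rw [mem_thickening_iff]
      exact ⟨f z, hfz, hx.trans_le ((min_le_left _ _).trans (min_le_left _ _))⟩
    · have h2 : dist (f z) x < δ2 := by
        rw [dist_comm]
        exact hx.trans_le ((min_le_left _ _).trans (min_le_right _ _))
      have h3 : dist (φ (f z)) (φ x) < η := hδ2s h2 hfz
      rw [← dist_eq_norm, dist_comm]
      exact h3

/-- OSCILLATION: uniform continuity of `f ∘ e.symm` on the closed unit disc. -/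
theorem osc (f : C(R, X)) {e : OpenPartialHomeomorph R ℂ} (he : e ∈ DChart R) {ε : ℝ}
    (hε : 0 < ε) :
    ∃ h1 > 0, ∀ ζ ∈ closedBall (0 : ℂ) 1, ∀ ζ' ∈ closedBall (0 : ℂ) 1, dist ζ ζ' ≤ h1 →
      dist (f (e.symm ζ)) (f (e.symm ζ')) < ε := by
  have hc : ContinuousOn (fun ζ => f (e.symm ζ)) (closedBall (0 : ℂ) 1) :=
    f.continuous.comp_continuousOn
      (e.continuousOn_symm.mono ((closedBall_subset_closedBall (by norm_num)).trans he.2))
  have huc := (isCompact_closedBall (0 : ℂ) 1).uniformContinuousOn_of_continuous hc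
  rw [Metric.uniformContinuousOn_iff] at huc
  obtain ⟨δ, hδ, h⟩ := huc ε hε
  refine ⟨δ / 2, by positivity, fun ζ hζ ζ' hζ' hd => h ζ hζ ζ' hζ' (by linarith)⟩

/-- The neighbourhoods `N1 ⊂⊂ N` of `D`. -/
theorem exists_N {D Ω Z : Set R} (hD : IsCompact D) (hΩ : IsOpen Ω) (hDΩ : D ⊆ Ω)
    (hZ : IsClosed Z) (hDZ : Disjoint D Z) :
    ∃ N1 N : Opens R, D ⊆ N1 ∧ closure (N1 : Set R) ⊆ N ∧ closure (N : Set R) ⊆ Ω ∧
      Disjoint (closure (N : Set R)) Z ∧ IsCompact (closure (N : Set R)) := by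
  haveI : LocallyCompactSpace R := ChartedSpace.locallyCompactSpace ℂ R
  obtain ⟨N, hNo, hDN, hNs, hNc⟩ := exists_open_between_and_isCompact_closure hD
    (hΩ.inter hZ.isOpen_compl) (fun z hz => ⟨hDΩ hz, Set.disjoint_left.1 hDZ hz⟩)
  obtain ⟨N1, hN1o, hDN1, hN1N, -⟩ := exists_open_between_and_isCompact_closure hD hNo hDN
  exact ⟨⟨N1, hN1o⟩, ⟨N, hNo⟩, hDN1, hN1N, hNs.trans inter_subset_left,
    Set.disjoint_left.2 fun z hz hzZ => (hNs hz).2 hzZ, hNc⟩

/-- The neighbourhood `WA` of `A`: closure compact in `W0`, and over `closure N` inside the open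
set `e ⁻¹ Q2`.  Proof: the set
`G = W0 ∩ ((closure N)ᶜ ∪ {z ∈ e.source | e z ∈ Q2})` is open and contains `A`; apply
`exists_open_between_and_isCompact_closure`. -/
theorem exists_WA {A : Set R} (hA : IsCompact A) {W0 N : Opens R} (hAW : A ⊆ W0)
    {e : OpenPartialHomeomorph R ℂ} (hNe : closure (N : Set R) ⊆ e.source) {Q2 : Set ℂ}
    (hQ2 : IsOpen Q2) (hQA : ∀ z ∈ A ∩ closure (N : Set R), e z ∈ Q2) :
    ∃ WA : Opens R, A ⊆ WA ∧ IsCompact (closure (WA : Set R)) ∧ closure (WA : Set R) ⊆ W0 ∧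
      ∀ z ∈ closure (WA : Set R) ∩ closure (N : Set R), e z ∈ Q2 := by
  haveI : LocallyCompactSpace R := ChartedSpace.locallyCompactSpace ℂ R
  have hGo : IsOpen ((W0 : Set R) ∩ ((closure (N : Set R))ᶜ ∪ (e.source ∩ e ⁻¹' Q2))) :=
    W0.2.inter (isClosed_closure.isOpen_compl.union (e.isOpen_inter_preimage hQ2))
  obtain ⟨WA, hWAo, hAWA, hWAG, hWAc⟩ := exists_open_between_and_isCompact_closure hA hGo
    (fun z hz => ⟨hAW hz, by
      by_cases hzN : z ∈ closure (N : Set R)
      · exact Or.inr ⟨hNe hzN, hQA z ⟨hz, hzN⟩⟩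
      · exact Or.inl hzN⟩)
  refine ⟨⟨WA, hWAo⟩, hAWA, hWAc, hWAG.trans inter_subset_left, ?_⟩
  rintro z ⟨hz, hzN⟩
  rcases (hWAG hz).2 with h | h
  · exact absurd hzN h
  · exact h.2

end Pool.Agent.W_4d259d_h86
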