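import Pool.Agent.W_4d259d_h44.ApiA
import Pool.Agent.W_4d259d_h44.ApiB
import Pool.Agent.W_4d259d_h44.ApiD
import Pool.Agent.W_4d259d_h46.PlB4

/-!
# Block BU, file Ops: the operators `P` and `T` of the bump lemma
-/

noncomputable section

set_option linter.unusedSectionVars false

namespace Pool.Agent.W_4d259d_h86

open Set Filter Topology Manifold Metric MeasureTheory TopologicalSpace
open scoped ContDiff
open Pool.Agent.W_4d259d_h46.Defs Pool.Agent.W_4d259d_h46 Pool.Agent.W_4d259d_h44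
open Pool.Agent.W_4d259d_h46.Pl

variable {R : Type} [TopologicalSpace R] [T2Space R] [ChartedSpace ℂ R]
  [IsManifold (modelWithCornersSelf ℂ ℂ) ω R]
variable {E : Type} [NormedAddCommGroup E] [NormedSpace ℂ E] [FiniteDimensional ℂ E]

/-- The operator `(P α) z = ξ z (α z)`.  Proof: `r = δ / 2`, `c1 = 4 * C / δ ^ 2`,
`P α = HB.mk (fun z => ξ z (α.fn z)) _ C _` if `‖α‖ < δ / 2` and `0` otherwise
(holomorphic by `hol2_sub`, `α.fn_hol.mono hUV`); `nem_lip` gives the estimate pointwise,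
`HB.norm_le_of`, `HB.fn_le`, `HB.fn_sub`. -/
theorem exists_P {U V : Opens R} (hUV : U ≤ V) {ξ : R → E → E} {δ C : ℝ} (hδ : 0 < δ)
    (hC : 0 ≤ C) (hξ : HolOn2 E ξ U (ball 0 δ))
    (hM : ∀ z ∈ U, ∀ w ∈ ball (0 : E) δ, ‖ξ z w‖ ≤ C)
    (h0 : ∀ z ∈ U, ξ z 0 = 0 ∧ fderiv ℂ (ξ z) 0 = 0) :
    ∃ (c1 r : ℝ) (P : HB V E → HB U E), 0 ≤ c1 ∧ 0 < r ∧ r ≤ δ ∧ P 0 = 0 ∧
      (∀ α : HB V E, ‖α‖ < r → ∀ z ∈ U, (P α).fn z = ξ z (α.fn z)) ∧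
      ∀ α α' : HB V E, ‖α‖ < r → ‖α'‖ < r →
        ‖P α - P α'‖ ≤ c1 * (‖α‖ + ‖α'‖) * ‖α - α'‖ := by
  classical
  haveI : CompleteSpace E := FiniteDimensional.complete ℂ E
  have hmem : ∀ α : HB V E, ‖α‖ < δ / 2 → ∀ z ∈ U, α.fn z ∈ ball (0 : E) δ := by
    intro α hα z _
    rw [mem_ball_zero_iff]
    exact (α.fn_le z).trans_lt (by linarith)
  let P : HB V E → HB U E := fun α => if h : ‖α‖ < δ / 2 then
    HB.mk (fun z => ξ z (α.fn z)) (hol2_sub hξ (α.fn_hol.mono hUV) (hmem α h)) C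
      (fun z hz => hM z hz _ (hmem α h z hz)) else 0
  have hP : ∀ α : HB V E, ‖α‖ < δ / 2 → ∀ z ∈ U, (P α).fn z = ξ z (α.fn z) := by
    intro α hα z hz
    simp only [P]
    rw [dif_pos hα]
    exact HB.mk_fn _ _ _ _ hz
  refine ⟨4 * C / δ ^ 2, δ / 2, P, by positivity, by positivity, by linarith, ?_, hP, ?_⟩
  · refine HB.ext' fun z hz => ?_
    rw [hP 0 (by rw [norm_zero]; positivity) z hz, HB.fn_zero, HB.fn_zero]
    exact (h0 z hz).1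
  · intro α α' hα hα'
    refine HB.norm_le_of (by positivity) fun z hz => ?_
    rw [HB.fn_sub, hP α hα z hz, hP α' hα' z hz]
    refine (nem_lip hξ hM (fun z hz => (h0 z hz).1) (fun z hz => (h0 z hz).2) z hz _ _
      ((α.fn_le z).trans_lt hα) ((α'.fn_le z).trans_lt hα')).trans ?_
    have h1 := α.fn_le z
    have h2 := α'.fn_le z
    have h3 : ‖α.fn z - α'.fn z‖ ≤ ‖α - α'‖ := by
      rw [← HB.fn_sub]
      exact HB.fn_le _ z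
    gcongr

/-- The map `b = MB β` written in the chart `e`. -/
def bOf (e : OpenPartialHomeomorph R ℂ) (MB : R → E →L[ℂ] E) (β : R → E) (ζ : ℂ) : E :=
  MB (e.symm ζ) (β (e.symm ζ))

/-- `b` is holomorphic on `e '' N1` (`holOn_clm_apply`, `holOn_iff_inChart`). -/
theorem bOf_diff {e : OpenPartialHomeomorph R ℂ} (he : e ∈ RChart R) {N1 WB : Opens R}
    (hN1 : (N1 : Set R) ⊆ e.source) (h1B : N1 ≤ WB) {MB : R → E →L[ℂ] E}
    (hMB : HolOn (E →L[ℂ] E) MB WB) (β : HB WB E) :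
    DifferentiableOn ℂ (bOf e MB β.fn) (e '' (N1 : Set R)) := by
  have h1 : HolOn E (fun z => MB z (β.fn z)) (N1 : Set R) :=
    holOn_clm_apply (hMB.mono h1B) (β.fn_hol.mono h1B)
  exact (holOn_iff_inChart he N1.2 hN1).1 h1

theorem bOf_le {e : OpenPartialHomeomorph R ℂ} {N1 WB : Opens R}
    (hN1 : (N1 : Set R) ⊆ e.source) (h1B : N1 ≤ WB) {MB : R → E →L[ℂ] E} {C : ℝ}
    (hMC : ∀ z ∈ WB, ‖MB z‖ ≤ C) (β : HB WB E) : ∀ ζ ∈ e '' (N1 : Set R),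
    ‖bOf e MB β.fn ζ‖ ≤ C * ‖β‖ := by
  rintro _ ⟨z, hz, rfl⟩
  unfold bOf
  rw [e.left_inv (hN1 hz)]
  have hC : ‖MB z‖ ≤ C := hMC z (h1B hz)
  exact ((MB z).le_opNorm _).trans
    (mul_le_mul hC (β.fn_le z) (norm_nonneg _) ((norm_nonneg _).trans hC))

theorem bOf_sub_le {e : OpenPartialHomeomorph R ℂ} {N1 WB : Opens R}
    (hN1 : (N1 : Set R) ⊆ e.source) (h1B : N1 ≤ WB) {MB : R → E →L[ℂ] E} {C : ℝ}
    (hMC : ∀ z ∈ WB, ‖MB z‖ ≤ C) (β β' : HB WB E) : ∀ ζ ∈ e '' (N1 : Set R),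
    ‖bOf e MB β.fn ζ - bOf e MB β'.fn ζ‖ ≤ C * ‖β - β'‖ := by
  intro ζ hζ
  have h1 := bOf_le hN1 h1B hMC (β - β') ζ hζ
  unfold bOf at h1 ⊢
  rwa [HB.fn_sub, map_sub] at h1

/-- `b` is small on the holes. -/
theorem bOf_small {e : OpenPartialHomeomorph R ℂ} (he : e ∈ RChart R) {N1 WB : Opens R}
    (hN1 : (N1 : Set R) ⊆ e.source) (h1B : N1 ≤ WB) {MB : R → E →L[ℂ] E}
    (hMB : HolOn (E →L[ℂ] E) MB WB) {C δ h : ℝ}
    (hMC : ∀ z ∈ WB, ‖MB z‖ ≤ C) {J : Finset ℂ}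
    (hJ : ∀ j ∈ J, ball j (h / 2) ⊆ e '' (N1 : Set R)) (β : HB WB E) (hβ : C * ‖β‖ ≤ δ / 8) :
    SmallOn h δ J (bOf e MB β.fn) := by
  intro j hj
  exact ⟨(bOf_diff he hN1 h1B hMB β).mono (hJ j hj),
    fun z hz => (bOf_le hN1 h1B hMC β z (hJ j hj hz)).trans hβ⟩

/-- The operator `(T β) z = MB(z)⁻¹ (Sop b (e z))`, `b = MB β`.  Proof: `T β = HB.mk _ _ _ _` if
`C * ‖β‖ ≤ δ / 8`, `0` otherwise.  Holomorphic on `O`: `Sop b` is holomorphic on the open set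
`e '' O` by `hS3` (`hO`, `hdb`), so `z ↦ Sop b (e z)` is holomorphic on `O`
(`holOn_iff_inChart`), and `holOn_opInv`, `holOn_clm_apply`.  Bound by `hS1`, Lipschitz by `hS2`
with `t = C * ‖β - β'‖` and `bOf_sub_le`. -/
theorem exists_T {e : OpenPartialHomeomorph R ℂ} (he : e ∈ RChart R) {N1 O WB : Opens R}
    (hN1 : (N1 : Set R) ⊆ e.source) (hOe : (O : Set R) ⊆ e.source) (h1B : N1 ≤ WB) (hOB : O ≤ WB)
    {MB : R → E →L[ℂ] E} (hMB : HolOn (E →L[ℂ] E) MB WB) {C δ h κ : ℝ} (hC : 0 ≤ C) (hδ : 0 < δ)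
    (hκ : 0 ≤ κ) (hMC : ∀ z ∈ WB, ‖MB z‖ ≤ C ∧ IsUnit (MB z) ∧ ‖Ring.inverse (MB z)‖ ≤ C)
    {J : Finset ℂ} (hJ : ∀ j ∈ J, ball j (h / 2) ⊆ e '' (N1 : Set R))
    (hO : ∀ z ∈ O, Off h J (e z)) {g0 : ℂ → E} {W : Set ℂ} (hdb : ∀ z ∈ O, dbar g0 (e z) = 0)
    {Sop : (ℂ → E) → ℂ → E}
    (hS1 : ∀ b, SmallOn h δ J b → ∀ z, Off h J z → ‖Sop b z‖ ≤ κ)
    (hS2 : ∀ b b', SmallOn h δ J b → SmallOn h δ J b' → ∀ t : ℝ, 0 ≤ t →
        (∀ j ∈ J, ∀ z ∈ ball j (h / 2), ‖b z - b' z‖ ≤ t) →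
        ∀ z, Off h J z → ‖Sop b z - Sop b' z‖ ≤ κ * t)
    (hS3 : ∀ b, SmallOn h δ J b → ∀ U, IsOpen U → (∀ z ∈ U, Off h J z) →
        (∀ z ∈ U ∩ W, dbar g0 z = 0) → DifferentiableOn ℂ (Sop b) U) :
    ∃ T : HB WB E → HB O E,
      (∀ β : HB WB E, C * ‖β‖ ≤ δ / 8 → ∀ z ∈ O,
        (T β).fn z = Ring.inverse (MB z) (Sop (bOf e MB β.fn) (e z))) ∧
      (∀ β : HB WB E, C * ‖β‖ ≤ δ / 8 → ‖T β‖ ≤ C * κ) ∧
      ∀ β β' : HB WB E, C * ‖β‖ ≤ δ / 8 → C * ‖β'‖ ≤ δ / 8 →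
        ‖T β - T β'‖ ≤ C * (κ * (C * ‖β - β'‖)) := by
  classical
  haveI : CompleteSpace E := FiniteDimensional.complete ℂ E
  have hMC1 : ∀ z ∈ WB, ‖MB z‖ ≤ C := fun z hz => (hMC z hz).1
  have hsm : ∀ β : HB WB E, C * ‖β‖ ≤ δ / 8 → SmallOn h δ J (bOf e MB β.fn) :=
    fun β hβ => bOf_small he hN1 h1B hMB hMC1 hJ β hβ
  have hhol : ∀ β : HB WB E, C * ‖β‖ ≤ δ / 8 →
      HolOn E (fun z => Ring.inverse (MB z) (Sop (bOf e MB β.fn) (e z))) (O : Set R) := by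
    intro β hβ
    refine holOn_clm_apply (holOn_opInv (hMB.mono hOB) fun z hz => (hMC z (hOB hz)).2.1) ?_
    refine (holOn_iff_inChart (U := (O : Set R)) he O.2 hOe).2 ?_
    have h1 : DifferentiableOn ℂ (Sop (bOf e MB β.fn)) (e '' (O : Set R)) := by
      refine hS3 _ (hsm β hβ) _ (e.isOpen_image_of_subset_source O.2 hOe) ?_ ?_
      · rintro _ ⟨z, hz, rfl⟩
        exact hO z hz
      · rintro _ ⟨⟨z, hz, rfl⟩, -⟩
        exact hdb z hz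
    refine h1.congr ?_
    rintro _ ⟨z, hz, rfl⟩
    rw [e.left_inv (hOe hz)]
  have hbd : ∀ β : HB WB E, C * ‖β‖ ≤ δ / 8 → ∀ z ∈ O,
      ‖Ring.inverse (MB z) (Sop (bOf e MB β.fn) (e z))‖ ≤ C * κ := by
    intro β hβ z hz
    refine ((Ring.inverse (MB z)).le_opNorm _).trans ?_
    exact mul_le_mul (hMC z (hOB hz)).2.2 (hS1 _ (hsm β hβ) _ (hO z hz)) (norm_nonneg _) hC
  let T : HB WB E → HB O E := fun β => if hβ : C * ‖β‖ ≤ δ / 8 then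
    HB.mk (fun z => Ring.inverse (MB z) (Sop (bOf e MB β.fn) (e z))) (hhol β hβ) (C * κ)
      (hbd β hβ) else 0
  have hT : ∀ β : HB WB E, C * ‖β‖ ≤ δ / 8 → ∀ z ∈ O,
      (T β).fn z = Ring.inverse (MB z) (Sop (bOf e MB β.fn) (e z)) := by
    intro β hβ z hz
    simp only [T]
    rw [dif_pos hβ]
    exact HB.mk_fn _ _ _ _ hz
  refine ⟨T, hT, fun β hβ => HB.norm_le_of (by positivity) fun z hz => ?_, ?_⟩
  · rw [hT β hβ z hz]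
    exact hbd β hβ z hz
  · intro β β' hβ hβ'
    refine HB.norm_le_of (by positivity) fun z hz => ?_
    rw [HB.fn_sub, hT β hβ z hz, hT β' hβ' z hz, ← map_sub]
    refine ((Ring.inverse (MB z)).le_opNorm _).trans ?_
    refine mul_le_mul (hMC z (hOB hz)).2.2 ?_ (norm_nonneg _) hC
    refine hS2 _ _ (hsm β hβ) (hsm β' hβ') (C * ‖β - β'‖) (by positivity) ?_ _ (hO z hz)
    intro j hj w hw
    exact bOf_sub_le hN1 h1B hMC1 β β' w (hJ j hj hw)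

end Pool.Agent.W_4d259d_h86
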