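import Pool.Agent.W_4d259d_h86.Cst
import Pool.Agent.W_4d259d_h46.PlD

/-!
# Block BU, file Vv: the open set `V` of the bump lemma (where the holes are)
-/

noncomputable section

set_option linter.unusedSectionVars false

namespace Pool.Agent.W_4d259d_h86

open Set Filter Topology Manifold Metric MeasureTheory TopologicalSpace
open scoped ContDiff
open Pool.Agent.W_4d259d_h46.Defs Pool.Agent.W_4d259d_h46 Pool.Agent.W_4d259d_h44
open Pool.Agent.W_4d259d_h46.Pl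

variable {R : Type} [TopologicalSpace R] [T2Space R] [ChartedSpace ℂ R]
variable {E : Type} [NormedAddCommGroup E] [NormedSpace ℂ E]

/-- The holes are dug in `V = e '' (interior B) \ (e '' (A ∩ halfOf e) ∪ closure Q2)`. -/
def VV (e : OpenPartialHomeomorph R ℂ) (A B : Set R) (Q2 : Set ℂ) : Set ℂ :=
  e '' (interior B) \ (e '' (A ∩ halfOf e) ∪ closure Q2)

theorem isOpen_VV {e : OpenPartialHomeomorph R ℂ} (he : e ∈ DChart R) {A B : Set R}
    (hA : IsCompact A) (hB : B ⊆ halfOf e) (Q2 : Set ℂ) : IsOpen (VV e A B Q2) := by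
  have hsrc : halfOf e ⊆ e.source := (halfOf_subset_unitOf e).trans (unitOf_subset_source he)
  have h1 : IsOpen (e '' interior B) :=
    e.isOpen_image_of_subset_source isOpen_interior (interior_subset.trans (hB.trans hsrc))
  have h2 : IsCompact (e '' (A ∩ halfOf e)) :=
    (hA.inter_right (isCompact_halfOf he).isClosed).image_of_continuousOn
      (e.continuousOn.mono (inter_subset_right.trans hsrc))
  exact h1.sdiff (h2.isClosed.union isClosed_closure)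

/-- `V ⊆ e '' D`, since `interior B \ A ⊆ closure (B \ A)`. -/
theorem VV_subset {e : OpenPartialHomeomorph R ℂ} (he : e ∈ DChart R) {A B : Set R}
    (hB : B ⊆ halfOf e) (Q2 : Set ℂ) : VV e A B Q2 ⊆ e '' closure (B \ A) := by
  rintro _ ⟨⟨z, hz, rfl⟩, hn⟩
  refine ⟨z, subset_closure ⟨interior_subset hz, fun hzA => hn (Or.inl ⟨z, ⟨hzA, ?_⟩, rfl⟩)⟩, rfl⟩
  exact hB (interior_subset hz)

/-- Points of `V` come from `interior B \ A`. -/
theorem VV_pre {e : OpenPartialHomeomorph R ℂ} (he : e ∈ DChart R) {A B : Set R}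
    (hB : B ⊆ halfOf e) {Q2 : Set ℂ} {ζ : ℂ} (h : ζ ∈ VV e A B Q2) :
    e.symm ζ ∈ interior B \ A ∧ ζ ∉ closure Q2 ∧ ζ ∈ closedBall (0 : ℂ) (1 / 2) := by
  have hsrc : halfOf e ⊆ e.source := (halfOf_subset_unitOf e).trans (unitOf_subset_source he)
  obtain ⟨⟨z, hz, rfl⟩, hn⟩ := h
  have hzh : z ∈ halfOf e := hB (interior_subset hz)
  rw [e.left_inv (hsrc hzh)]
  refine ⟨⟨hz, fun hzA => hn (Or.inl ⟨z, ⟨hzA, hzh⟩, rfl⟩)⟩, fun hq => hn (Or.inr hq), ?_⟩
  obtain ⟨w, hw, rfl⟩ := hzh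
  have hwt : w ∈ e.target := he.2 (closedBall_subset_closedBall (by norm_num) hw)
  rwa [e.right_inv hwt]

/-- The part of `e '' D` outside `V` where `∂̄ g0 ≠ 0` is a null set.  Proof: let
`ζ = e z`, `z ∈ D = closure (B \ A) ⊆ B` (`B` closed), `ζ ∉ V`, `dbar g0 ζ ≠ 0`.  Then `ζ ∉ Q1`
(as `z ∈ D ⊆ N`), so `ζ ∉ closure Q2`, so `z ∉ A` (`z ∈ A` would give `ζ ∈ Q2`, `z` being in
`D ⊆ N`), so `z ∉ interior B` (otherwise `ζ ∈ V`; `ζ ∉ e '' (A ∩ halfOf e)` by injectivity of `e`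
on `e.source`): `z ∈ frontier B`.  So the set is inside `e '' (frontier B ∩ e.source)`, null by
`hBn`. -/
theorem VV_null {e : OpenPartialHomeomorph R ℂ} (he : e ∈ DChart R) {A B : Set R}
    (hBc : IsCompact B) (hB : B ⊆ halfOf e) (hBn : NullSet (frontier B)) {N : Opens R}
    (hDN : closure (B \ A) ⊆ (N : Set R)) {Q1 Q2 : Set ℂ} (hQ : closure Q2 ⊆ Q1)
    (hQA : ∀ z ∈ A ∩ closure (N : Set R), e z ∈ Q2) {g0 : ℂ → E}
    (hg : ∀ ζ ∈ Q1 ∩ e '' (N : Set R), dbar g0 ζ = 0) :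
    volume ((e '' closure (B \ A) \ VV e A B Q2) ∩ {ζ | dbar g0 ζ ≠ 0}) = 0 := by
  have hsrc : halfOf e ⊆ e.source := (halfOf_subset_unitOf e).trans (unitOf_subset_source he)
  refine measure_mono_null ?_ (hBn e he.1)
  rintro _ ⟨⟨⟨z, hz, rfl⟩, hV⟩, hdb⟩
  have hzB : z ∈ B := closure_minimal sdiff_subset hBc.isClosed hz
  have hzN : z ∈ (N : Set R) := hDN hz
  have hQ1 : e z ∉ Q1 := fun hq => hdb (hg (e z) ⟨hq, ⟨z, hzN, rfl⟩⟩)
  have hQ2 : e z ∉ closure Q2 := fun hq => hQ1 (hQ hq)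
  have hzA : z ∉ A := fun ha => hQ2 (subset_closure (hQA z ⟨ha, subset_closure hzN⟩))
  have hzi : z ∉ interior B := by
    intro hi
    apply hV
    refine ⟨⟨z, hi, rfl⟩, ?_⟩
    rintro (⟨z', ⟨hz'A, hz'h⟩, he'⟩ | hq)
    · have : z' = z := e.injOn (hsrc hz'h) (hsrc (hB hzB)) he'
      rw [this] at hz'A
      exact hzA hz'A
    · exact hQ2 hq
  exact ⟨z, ⟨⟨subset_closure hzB, hzi⟩, hsrc (hB hzB)⟩, rfl⟩

end Pool.Agent.W_4d259d_h86
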