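import Pool.Agent.W_4d259d_h86.Cst
import Pool.Agent.W_4d259d_h86.Ops
import Pool.Agent.W_4d259d_h86.Vv

/-!
# Block BU, file Glue: the new map, the discs
-/

noncomputable section

set_option linter.unusedSectionVars false

namespace Pool.Agent.W_4d259d_h86

open Set Filter Topology Manifold Metric MeasureTheory TopologicalSpace
open scoped ContDiff
open Pool.Agent.W_4d259d_h46.Defs Pool.Agent.W_4d259d_h46 Pool.Agent.W_4d259d_h44
open Pool.Agent.W_4d259d_h46.Pl

variable {R : Type} [TopologicalSpace R] [T2Space R] [ChartedSpace ℂ R]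
  [IsManifold (modelWithCornersSelf ℂ ℂ) ω R]
variable {E : Type} [NormedAddCommGroup E] [NormedSpace ℂ E] [FiniteDimensional ℂ E]
variable {X : Type} [MetricSpace X] [ChartedSpace E X]
  [IsManifold (modelWithCornersSelf ℂ E) ω X]

/-- The new map. -/
def glueMap (WA : Set R) (s : R → E → X) (α : R → E) (e : OpenPartialHomeomorph R ℂ) (G : ℂ → X)
    (z : R) : X :=
  open Classical in if z ∈ WA then s z (α z) else G (e z)

/-- The point of `N1` over `W`. -/
theorem isOpen_over {e : OpenPartialHomeomorph R ℂ} {N1 : Opens R}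
    (hN1 : (N1 : Set R) ⊆ e.source) {W : Set ℂ} (hW : IsOpen W) :
    IsOpen {z | z ∈ N1 ∧ e z ∈ W} := by
  have h : {z | z ∈ N1 ∧ e z ∈ W} = (N1 : Set R) ∩ e ⁻¹' W := rfl
  rw [h]
  exact (e.continuousOn.mono hN1).isOpen_inter_preimage N1.isOpen hW

/-- On the overlap both formulas agree: `φ` of both points is
`φ (F z) + MB z (α + ξ z α) = φ (F z) + MB z β + Sop b (e z)`, because
`α - β = MB(z)⁻¹ (Sop b (e z)) - ξ z α`; `φ` is injective on `φ.source`. -/
theorem agree {φ : OpenPartialHomeomorph X E} {p q : X} (hp : p ∈ φ.source) (hq : q ∈ φ.source)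
    {M : E →L[ℂ] E} (hM : IsUnit M) {x a b x' S : E}
    (h1 : φ p = x + M (a + x')) (h2 : φ q = x + M b + S)
    (h3 : Ring.inverse M S - x' = a - b) : p = q := by
  have h4 : a + x' = b + Ring.inverse M S := by
    have h7 : a = b + (Ring.inverse M S - x') := by rw [h3]; abel
    rw [h7]
    abel
  have h5 : M (Ring.inverse M S) = S := by
    have h6 : M * Ring.inverse M = 1 := Ring.mul_inverse_cancel M hM
    have h7 := congrArg (fun L : E →L[ℂ] E => L S) h6
    simpa using h7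
  have h6 : φ p = φ q := by
    rw [h1, h2, h4, map_add, h5]
    abel
  exact φ.injOn hp hq h6

/-- Holomorphy of the new map on `WA ∪ {z ∈ N1 | e z ∈ W}` (`holOn_union`,
`MDifferentiableOn.congr`; `z ↦ G (e z)` by `chart_hol` and composition, or
`holOn_iff_inChartX`). -/
theorem glue_hol {e : OpenPartialHomeomorph R ℂ} (he : e ∈ RChart R) {WA N1 : Opens R}
    (hN1 : (N1 : Set R) ⊆ e.source) {s : R → E → X} {α : R → E}
    (hs : HolOn E (fun z => s z (α z)) WA) {W : Set ℂ} (hW : IsOpen W) {G : ℂ → X}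
    (hG : HolOn E G W) (hag : ∀ z ∈ WA, z ∈ N1 → e z ∈ W → s z (α z) = G (e z)) :
    HolOn E (glueMap (WA : Set R) s α e G) ((WA : Set R) ∪ {z | z ∈ N1 ∧ e z ∈ W}) := by
  refine holOn_union WA.isOpen (isOpen_over hN1 hW) ?_ ?_
  · refine MDifferentiableOn.congr hs fun z hz => ?_
    simp only [glueMap, hz, if_true]
  · have h1 : HolOn E (fun z => G (e z)) {z | z ∈ N1 ∧ e z ∈ W} := by
      refine MDifferentiableOn.comp (I' := modelWithCornersSelf ℂ ℂ) hG
        ((chart_hol he).mono fun z hz => hN1 hz.1) fun z hz => hz.2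
    refine MDifferentiableOn.congr h1 fun z hz => ?_
    by_cases hzA : z ∈ (WA : Set R)
    · simp only [glueMap, hzA, if_true]
      exact hag z hzA hz.1 hz.2
    · simp only [glueMap, hzA, if_false]

/-- The family of discs. -/
def discs (e : OpenPartialHomeomorph R ℂ) (h : ℝ) (J : Finset ℂ) : Set (Set R) :=
  (fun j => e.symm '' closedBall j (h / 4)) '' (J : Set ℂ)

theorem discFam_discs {e : OpenPartialHomeomorph R ℂ} (he : e ∈ DChart R) {h : ℝ} (hh : 0 < h)
    {J : Finset ℂ} (hJ : ∀ j ∈ J, closedBall j (h / 4) ⊆ closedBall (0 : ℂ) 1)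
    (hJd : ∀ i ∈ J, ∀ j ∈ J, i ≠ j → Disjoint (ball i (h / 2)) (ball j (h / 2))) :
    DiscFam (discs e h J) := by
  have ht : closedBall (0 : ℂ) 1 ⊆ e.target :=
    (closedBall_subset_closedBall (by norm_num)).trans he.2
  refine ⟨J.finite_toSet.image _, ?_, ?_⟩
  · rintro _ ⟨j, hj, rfl⟩
    exact ⟨e, he.1, j, h / 4, by positivity, (hJ j hj).trans ht, rfl⟩
  · rintro _ ⟨i, hi, rfl⟩ _ ⟨j, hj, rfl⟩ hij
    have hne : i ≠ j := fun h => hij (by rw [h])
    have hd := hJd i hi j hj hne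
    have hs : ∀ k : ℂ, closedBall k (h / 4) ⊆ ball k (h / 2) := fun k =>
      closedBall_subset_ball (by linarith)
    change Disjoint (e.symm '' closedBall i (h / 4)) (e.symm '' closedBall j (h / 4))
    rw [Set.disjoint_left]
    rintro _ ⟨ζ, hζ, rfl⟩ ⟨ζ', hζ', hζζ⟩
    have h1 : ζ' = ζ := e.symm.injOn (ht (hJ j hj hζ')) (ht (hJ i hi hζ)) hζζ
    subst h1
    exact Set.disjoint_left.1 hd (hs i hζ) (hs j hζ')

/-- A point off the discs is `Off`. -/
theorem off_of_not_mem {e : OpenPartialHomeomorph R ℂ} {h : ℝ} {J : Finset ℂ} {z : R}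
    (hz : z ∈ e.source) (hs : z ∉ ⋃₀ discs e h J) : Off h J (e z) := by
  intro j hj
  by_contra hcon
  push Not at hcon
  apply hs
  refine ⟨_, ⟨j, hj, rfl⟩, e z, ?_, e.left_inv hz⟩
  rw [mem_closedBall, dist_eq_norm]
  exact hcon.le

/-- Points over `closure Q2` are off the holes. -/
theorem off_of_Q2 {e : OpenPartialHomeomorph R ℂ} {A B : Set R} {Q2 : Set ℂ} {h : ℝ}
    (hh : 0 < h) {J : Finset ℂ} (hJ : ∀ j ∈ J, closedBall j (h / 2) ⊆ VV e A B Q2) {ζ : ℂ}
    (hζ : ζ ∈ Q2) : Off h J ζ := by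
  intro j hj
  by_contra hcon
  push Not at hcon
  have h1 : ζ ∈ closedBall j (h / 2) := by
    rw [mem_closedBall, dist_eq_norm]
    linarith
  exact (hJ j hj h1).2 (Or.inr (subset_closure hζ))

/-- The discs are inside `interior B \ A` and the oscillation of `f` on them is small. -/
theorem discs_prop (f : C(R, X)) {e : OpenPartialHomeomorph R ℂ} (he : e ∈ DChart R)
    {A B : Set R} (hB : B ⊆ halfOf e) {Q2 : Set ℂ} {h h1 ε : ℝ} (hh : 0 < h) (hh1 : h ≤ h1)
    (hosc : ∀ ζ ∈ closedBall (0 : ℂ) 1, ∀ ζ' ∈ closedBall (0 : ℂ) 1, dist ζ ζ' ≤ h1 →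
      dist (f (e.symm ζ)) (f (e.symm ζ')) < ε)
    {J : Finset ℂ} (hJ : ∀ j ∈ J, closedBall j (h / 2) ⊆ VV e A B Q2) :
    ∀ D ∈ discs e h J, D ⊆ interior B \ A ∧ ∀ z ∈ D, ∀ z' ∈ D, dist (f z) (f z') < ε := by
  rintro _ ⟨j, hj, rfl⟩
  have hsub : closedBall j (h / 4) ⊆ closedBall j (h / 2) :=
    closedBall_subset_closedBall (by linarith)
  have h1 : closedBall (0 : ℂ) (1 / 2) ⊆ closedBall (0 : ℂ) 1 :=
    closedBall_subset_closedBall (by norm_num)
  refine ⟨?_, ?_⟩
  · rintro _ ⟨ζ, hζ, rfl⟩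
    exact (VV_pre he hB (hJ j hj (hsub hζ))).1
  · rintro _ ⟨ζ, hζ, rfl⟩ _ ⟨ζ', hζ', rfl⟩
    refine hosc ζ (h1 (VV_pre he hB (hJ j hj (hsub hζ))).2.2) ζ'
      (h1 (VV_pre he hB (hJ j hj (hsub hζ'))).2.2) ?_
    have h2 := dist_triangle_right ζ ζ' j
    rw [mem_closedBall] at hζ hζ'
    linarith

end Pool.Agent.W_4d259d_h86
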